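import Mathlib
import Pool.Prelude.Def_F_c31e40fa
import Pool.Agent.H713R2.AR.PR

set_option autoImplicit false

open Complex Topology Filter Metric MeasureTheory Set N62a1eb23

namespace Pool.Agent.H285R3.MB

open Pool.Agent.H713R2 Pool.Agent.H712R2

/-- the width of the annulus -/
noncomputable def eta (d : ℕ) : ℝ := 8 * Real.log d / d

theorem log_ge {d : ℕ} (hd : 200 ≤ d) : 4 ≤ Real.log d := by
  have h1 : (200 : ℝ) ≤ d := by exact_mod_cast hd
  have h2 : Real.log 200 ≤ Real.log d := Real.log_le_log (by norm_num) h1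
  have h3 : (4 : ℝ) ≤ Real.log 200 := by
    rw [Real.le_log_iff_exp_le (by norm_num)]
    have h4 : Real.exp 1 < 2.7182818286 := Real.exp_one_lt_d9
    have h5 : Real.exp 4 = Real.exp 1 ^ 4 := by
      rw [← Real.exp_nat_mul]; norm_num
    rw [h5]
    calc Real.exp 1 ^ 4 ≤ 2.7182818286 ^ 4 :=
          pow_le_pow_left₀ (Real.exp_pos 1).le h4.le 4
      _ ≤ 200 := by norm_num
  linarith

theorem eta_pos {d : ℕ} (hd : 200 ≤ d) : 0 < eta d := by
  have h1 := log_ge hd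
  have h2 : (200 : ℝ) ≤ d := by exact_mod_cast hd
  unfold eta
  positivity

theorem eta_le {d : ℕ} (hd : 200 ≤ d) : eta d ≤ 1 / 2 := by
  have h2 : (200 : ℝ) ≤ d := by exact_mod_cast hd
  have hd0 : (0 : ℝ) < d := by linarith
  unfold eta
  rw [div_le_iff₀ hd0]
  -- log d = log (d / 200) + log 200 <= d / 200 - 1 + log 200
  have h1 : Real.log d ≤ d / 200 - 1 + Real.log 200 := by
    have h3 := Real.log_le_sub_one_of_pos (show (0 : ℝ) < d / 200 by positivity)
    rw [Real.log_div (by positivity) (by norm_num)] at h3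
    linarith
  have h4 : Real.log 200 ≤ 6 := by
    rw [Real.log_le_iff_le_exp (by norm_num)]
    have h5 : (2.7182818283 : ℝ) < Real.exp 1 := Real.exp_one_gt_d9
    have h6 : Real.exp 6 = Real.exp 1 ^ 6 := by
      rw [← Real.exp_nat_mul]; norm_num
    rw [h6]
    calc (200 : ℝ) ≤ 2.7182818283 ^ 6 := by norm_num
      _ ≤ Real.exp 1 ^ 6 := pow_le_pow_left₀ (by norm_num) h5.le 6
  nlinarith

theorem pow_growth {d : ℕ} (hd : 200 ≤ d) : (d : ℝ) ≤ (1 + eta d) ^ (d - 1) := by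
  have h0 := eta_pos hd
  have h1 := eta_le hd
  have hl := log_ge hd
  have h2 : (200 : ℝ) ≤ d := by exact_mod_cast hd
  have hd0 : (0 : ℝ) < d := by linarith
  have h3 : Real.exp (eta d / 2) ≤ 1 + eta d := by
    have h4 : 1 - eta d / 2 ≤ Real.exp (-(eta d / 2)) := by
      have := Real.add_one_le_exp (-(eta d / 2))
      linarith
    rw [Real.exp_neg] at h4
    have h5 : 0 < Real.exp (eta d / 2) := Real.exp_pos _
    have h6 : (1 - eta d / 2) * Real.exp (eta d / 2) ≤ 1 := by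
      calc (1 - eta d / 2) * Real.exp (eta d / 2)
          ≤ (Real.exp (eta d / 2))⁻¹ * Real.exp (eta d / 2) :=
            mul_le_mul_of_nonneg_right h4 h5.le
        _ = 1 := inv_mul_cancel₀ h5.ne'
    have h7 : 0 < 1 - eta d / 2 := by linarith
    have h8 : Real.exp (eta d / 2) ≤ 1 / (1 - eta d / 2) := by
      rw [le_div_iff₀ h7]; linarith
    refine h8.trans ?_
    rw [div_le_iff₀ h7]
    nlinarith
  calc (d : ℝ) = Real.exp (Real.log d) := (Real.exp_log hd0).symm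
    _ ≤ Real.exp (((d - 1 : ℕ) : ℝ) * (eta d / 2)) := by
        apply Real.exp_le_exp.mpr
        have h9 : ((d - 1 : ℕ) : ℝ) = d - 1 := by
          rw [Nat.cast_sub (by omega)]; norm_num
        rw [h9]
        unfold eta
        have h10 : ((d : ℝ) - 1) * (8 * Real.log d / d / 2) = 4 * Real.log d * ((d - 1) / d) := by
          field_simp
          ring
        rw [h10]
        have h11 : (1 / 2 : ℝ) ≤ (d - 1) / d := by
          rw [le_div_iff₀ hd0]; linarith
        nlinarith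
    _ = Real.exp (eta d / 2) ^ (d - 1) := by rw [Real.exp_nat_mul]
    _ ≤ (1 + eta d) ^ (d - 1) := pow_le_pow_left₀ (Real.exp_pos _).le h3 _

/-- escape radius -/
theorem esc_step {d : ℕ} (hd : 2 ≤ d) {c : ℂ} {k : ℕ} (hck : ‖c‖ ≤ ‖P d k c‖)
    (h2 : 2 < ‖P d k c‖ ^ (d - 1)) : c ∉ multibrotSet d := by
  intro hM
  have hb := (mem_multibrot_iff hd c).mp hM
  set δ : ℝ := ‖P d k c‖ ^ (d - 1) - 2 with hδ
  have hδ0 : 0 < δ := by rw [hδ]; linarith
  have hR : 0 < ‖P d k c‖ := by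
    by_contra hcon
    have h3 : ‖P d k c‖ = 0 := le_antisymm (not_lt.mp hcon) (norm_nonneg _)
    rw [h3, zero_pow (by omega)] at h2
    linarith
  have key : ∀ j, ‖P d k c‖ * (1 + δ) ^ j ≤ ‖P d (k + j) c‖ := by
    intro j
    induction j with
    | zero => simp
    | succ j ih =>
      have h1 : ‖P d k c‖ ≤ ‖P d (k + j) c‖ := by
        refine le_trans ?_ ih
        exact le_mul_of_one_le_right hR.le (one_le_pow₀ (by linarith))
      have h3 : P d (k + (j + 1)) c = (P d (k + j) c) ^ d + c := by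
        rw [show k + (j + 1) = (k + j) + 1 by ring, P_succ]
      rw [h3]
      have h4 : ‖(P d (k + j) c) ^ d‖ - ‖c‖ ≤ ‖(P d (k + j) c) ^ d + c‖ := by
        have := norm_sub_le ((P d (k + j) c) ^ d + c) c
        rw [add_sub_cancel_right] at this
        linarith
      have h5 : ‖(P d (k + j) c) ^ d‖ = ‖P d (k + j) c‖ ^ (d - 1) * ‖P d (k + j) c‖ := by
        rw [norm_pow, ← pow_succ]; congr 1; omega
      have h6 : 2 + δ ≤ ‖P d (k + j) c‖ ^ (d - 1) := by
        have := pow_le_pow_left₀ hR.le h1 (d - 1)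
        rw [hδ]; linarith
      have h7 : (2 + δ) * ‖P d (k + j) c‖ ≤ ‖P d (k + j) c‖ ^ (d - 1) * ‖P d (k + j) c‖ :=
        mul_le_mul_of_nonneg_right h6 (norm_nonneg _)
      have h8 : ‖P d k c‖ * (1 + δ) ^ (j + 1) ≤ (1 + δ) * ‖P d (k + j) c‖ := by
        rw [pow_succ]
        nlinarith
      have h9 : ‖c‖ ≤ ‖P d (k + j) c‖ := hck.trans h1
      nlinarith
  obtain ⟨j, hj⟩ := pow_unbounded_of_one_lt (2 / ‖P d k c‖) (show (1 : ℝ) < 1 + δ by linarith)
  have h1 := key j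
  have h3 := hb (k + j)
  rw [div_lt_iff₀ hR] at hj
  nlinarith

theorem outer {d : ℕ} (hd : 200 ≤ d) {c : ℂ} (hc : c ∈ multibrotSet d) :
    ‖c ^ (d - 1) + 1‖ ≤ 1 + eta d := by
  have hd2 : 2 ≤ d := by omega
  have h0 := eta_pos hd
  have hl := log_ge hd
  have h2 : (200 : ℝ) ≤ d := by exact_mod_cast hd
  have hd0 : (0 : ℝ) < d := by linarith
  have hP1 : P d 1 c = c := P_one hd2 c
  have hP2 : P d 2 c = c * (c ^ (d - 1) + 1) := by
    rw [show (2 : ℕ) = 1 + 1 by rfl, P_succ, hP1]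
    obtain ⟨m, rfl⟩ : ∃ m, d = m + 1 := ⟨d - 1, by omega⟩
    rw [Nat.add_sub_cancel, pow_succ]; ring
  have hc1 : ‖c‖ ^ (d - 1) ≤ 2 := by
    by_contra hcon
    exact esc_step hd2 (k := 1) (by rw [hP1]) (by rw [hP1]; linarith) hc
  have hc2 : ‖P d 2 c‖ ^ (d - 1) ≤ 2 := by
    rcases le_total ‖c‖ ‖P d 2 c‖ with h | h
    · by_contra hcon
      exact esc_step hd2 (k := 2) h (by linarith) hc
    · exact (pow_le_pow_left₀ (norm_nonneg _) h _).trans hc1
  by_contra hcon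
  push Not at hcon
  rw [hP2, norm_mul, mul_pow, ← norm_pow] at hc2
  have h3 : eta d ≤ ‖c ^ (d - 1)‖ := by
    have := norm_add_le (c ^ (d - 1)) 1
    rw [norm_one] at this
    linarith
  have h4 : (d : ℝ) ≤ ‖c ^ (d - 1) + 1‖ ^ (d - 1) :=
    (pow_growth hd).trans (pow_le_pow_left₀ (by linarith) hcon.le _)
  have h5 : eta d * d ≤ ‖c ^ (d - 1)‖ * ‖c ^ (d - 1) + 1‖ ^ (d - 1) :=
    mul_le_mul h3 h4 hd0.le (norm_nonneg _)
  have h6 : eta d * d = 8 * Real.log d := by
    unfold eta; field_simp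
  linarith

theorem norm_one_add_pow_sub (e : ℂ) (m : ℕ) : ‖(1 + e) ^ m - 1‖ ≤ (1 + ‖e‖) ^ m - 1 := by
  induction m with
  | zero => simp
  | succ m ih =>
    have h1 : (1 + e) ^ (m + 1) - 1 = ((1 + e) ^ m - 1) * (1 + e) + e := by ring
    rw [h1]
    calc ‖((1 + e) ^ m - 1) * (1 + e) + e‖ ≤ ‖(1 + e) ^ m - 1‖ * ‖1 + e‖ + ‖e‖ := by
          refine (norm_add_le _ _).trans ?_
          rw [norm_mul]
      _ ≤ ((1 + ‖e‖) ^ m - 1) * (1 + ‖e‖) + ‖e‖ := by
          have h2 : ‖1 + e‖ ≤ 1 + ‖e‖ := by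
            have := norm_add_le (1 : ℂ) e
            rwa [norm_one] at this
          have h3 : 0 ≤ (1 + ‖e‖) ^ m - 1 := by
            have := one_le_pow₀ (show (1 : ℝ) ≤ 1 + ‖e‖ by linarith [norm_nonneg e]) (n := m)
            linarith
          have := mul_le_mul ih h2 (norm_nonneg _) h3
          linarith
      _ = (1 + ‖e‖) ^ (m + 1) - 1 := by ring

theorem inner {d : ℕ} (hd : 200 ≤ d) {c : ℂ} (hc : ‖c ^ (d - 1) + 1‖ ≤ 1 - eta d) :
    c ∈ multibrotSet d := by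
  have hd2 : 2 ≤ d := by omega
  have h0 := eta_pos hd
  have hl := log_ge hd
  have h2 : (200 : ℝ) ≤ d := by exact_mod_cast hd
  have hd0 : (0 : ℝ) < d := by linarith
  obtain ⟨u, hu⟩ : ∃ u : ℂ, u = c ^ (d - 1) := ⟨_, rfl⟩
  rw [← hu] at hc
  have hu2 : ‖u‖ ≤ 2 := by
    have := norm_sub_le (u + 1) 1
    rw [add_sub_cancel_right, norm_one] at this
    linarith
  set y : ℕ → ℂ := fun k => (fun z : ℂ => 1 + u * z ^ d)^[k] 0 with hy
  have hy0 : y 0 = 0 := rfl
  have hys : ∀ k, y (k + 1) = 1 + u * (y k) ^ d := by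
    intro k
    simp only [hy, Function.iterate_succ_apply']
  have hP : ∀ k, P d k c = c * y k := by
    intro k
    induction k with
    | zero => simp [P, hy0]
    | succ k ih =>
      rw [P_succ, ih, hys, hu]
      obtain ⟨m, rfl⟩ : ∃ m, d = m + 1 := ⟨d - 1, by omega⟩
      rw [Nat.add_sub_cancel, mul_pow, pow_succ c]; ring
  -- the two steps
  have hodd : ∀ z : ℂ, ‖z - 1‖ ≤ 1 / (d : ℝ) ^ 2 → ‖(1 + u * z ^ d) - (u + 1)‖ ≤ 4 / d := by
    intro z hz
    have h3 := norm_one_add_pow_sub (z - 1) d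
    rw [add_sub_cancel] at h3
    have h4 : (1 + ‖z - 1‖) ^ d ≤ Real.exp (1 / d) := by
      have h5 : 1 + ‖z - 1‖ ≤ Real.exp (1 / (d : ℝ) ^ 2) := by
        have := Real.add_one_le_exp (1 / (d : ℝ) ^ 2)
        linarith
      calc (1 + ‖z - 1‖) ^ d ≤ Real.exp (1 / (d : ℝ) ^ 2) ^ d :=
            pow_le_pow_left₀ (by positivity) h5 d
        _ = Real.exp (1 / d) := by
            rw [← Real.exp_nat_mul]; congr 1; field_simp
    have h6 : Real.exp (1 / d) ≤ 1 + 2 / d := by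
      have h7 : 1 - 1 / (d : ℝ) ≤ Real.exp (-(1 / d)) := by
        have := Real.add_one_le_exp (-(1 / (d : ℝ)))
        linarith
      rw [Real.exp_neg] at h7
      have h8 : 0 < Real.exp (1 / (d : ℝ)) := Real.exp_pos _
      have h9 : (1 - 1 / (d : ℝ)) * Real.exp (1 / d) ≤ 1 := by
        calc (1 - 1 / (d : ℝ)) * Real.exp (1 / d)
            ≤ (Real.exp (1 / (d : ℝ)))⁻¹ * Real.exp (1 / d) :=
              mul_le_mul_of_nonneg_right h7 h8.le
          _ = 1 := inv_mul_cancel₀ h8.ne'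
      have h10 : 1 / (d : ℝ) ≤ 1 / 200 := one_div_le_one_div_of_le (by norm_num) h2
      have h11 : 0 < 1 / (d : ℝ) := by positivity
      have h12 : Real.exp (1 / (d : ℝ)) ≤ 1 / (1 - 1 / d) := by
        rw [le_div_iff₀ (by linarith)]; linarith
      refine h12.trans ?_
      rw [div_le_iff₀ (by linarith)]
      have h13 : (2 : ℝ) / d = 2 * (1 / d) := by ring
      rw [h13]
      nlinarith
    have h14 : (1 + u * z ^ d) - (u + 1) = u * (z ^ d - 1) := by ring
    rw [h14, norm_mul]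
    have h15 : ‖z ^ d - 1‖ ≤ 2 / d := by linarith
    calc ‖u‖ * ‖z ^ d - 1‖ ≤ 2 * (2 / d) :=
          mul_le_mul hu2 h15 (norm_nonneg _) (by norm_num)
      _ = 4 / d := by ring
  have hnorm : ∀ z : ℂ, ‖z - (u + 1)‖ ≤ 4 / d → ‖z‖ ≤ 1 - eta d / 2 := by
    intro z hz
    have h3 : ‖z‖ ≤ ‖z - (u + 1)‖ + ‖u + 1‖ := by
      have := norm_add_le (z - (u + 1)) (u + 1)
      rwa [sub_add_cancel] at this
    have h4 : 4 / (d : ℝ) ≤ eta d / 2 := by
      unfold eta
      rw [div_div, div_le_div_iff₀ hd0 (by positivity)]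
      nlinarith
    linarith
  have heven : ∀ z : ℂ, ‖z - (u + 1)‖ ≤ 4 / d → ‖(1 + u * z ^ d) - 1‖ ≤ 1 / (d : ℝ) ^ 2 := by
    intro z hz
    have h3 := hnorm z hz
    have h5 : ‖z‖ ^ d ≤ 1 / (d : ℝ) ^ 4 := by
      have h6 : ‖z‖ ≤ Real.exp (-(eta d / 2)) := by
        have := Real.add_one_le_exp (-(eta d / 2))
        linarith
      calc ‖z‖ ^ d ≤ Real.exp (-(eta d / 2)) ^ d := pow_le_pow_left₀ (norm_nonneg _) h6 d
        _ = Real.exp (-(4 * Real.log d)) := by
            rw [← Real.exp_nat_mul]; congr 1; unfold eta; field_simp; ring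
        _ = 1 / (d : ℝ) ^ 4 := by
            rw [Real.exp_neg, show (4 : ℝ) * Real.log d = ((4 : ℕ) : ℝ) * Real.log d by norm_num,
              Real.exp_nat_mul, Real.exp_log hd0, one_div]
    rw [add_sub_cancel_left, norm_mul, norm_pow]
    calc ‖u‖ * ‖z‖ ^ d ≤ 2 * (1 / (d : ℝ) ^ 4) :=
          mul_le_mul hu2 h5 (by positivity) (by norm_num)
      _ ≤ 1 / (d : ℝ) ^ 2 := by
          rw [mul_one_div, div_le_div_iff₀ (by positivity) (by positivity)]
          have h7 : (2 : ℝ) ≤ (d : ℝ) ^ 2 := by nlinarith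
          have h8 : (d : ℝ) ^ 4 = (d : ℝ) ^ 2 * (d : ℝ) ^ 2 := by ring
          rw [h8]
          have h9 : 0 < (d : ℝ) ^ 2 := by positivity
          nlinarith
  have hmain : ∀ k, ‖y (2 * k + 1) - 1‖ ≤ 1 / (d : ℝ) ^ 2 ∧
      ‖y (2 * k + 2) - (u + 1)‖ ≤ 4 / d := by
    intro k
    induction k with
    | zero =>
      have h3 : y 1 = 1 := by
        rw [show (1 : ℕ) = 0 + 1 by rfl, hys, hy0, zero_pow (by omega)]; ring
      have h4 : ‖y 1 - 1‖ ≤ 1 / (d : ℝ) ^ 2 := by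
        rw [h3, sub_self, norm_zero]; positivity
      refine ⟨h4, ?_⟩
      have h5 := hodd (y 1) h4
      rw [← hys] at h5
      exact h5
    | succ k ih =>
      have h3 := heven _ ih.2
      rw [← hys] at h3
      have h4 : 2 * (k + 1) + 1 = 2 * k + 2 + 1 := by ring
      have h5 : 2 * (k + 1) + 2 = (2 * k + 2 + 1) + 1 := by ring
      rw [h4, h5]
      refine ⟨h3, ?_⟩
      have h6 := hodd _ h3
      rw [← hys] at h6
      exact h6
  have hyb : ∀ k, ‖y k‖ ≤ 1.1 := by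
    intro k
    rcases Nat.even_or_odd' k with ⟨m, rfl | rfl⟩
    · rcases Nat.eq_zero_or_pos m with rfl | hm
      · rw [Nat.mul_zero, hy0, norm_zero]; norm_num
      · obtain ⟨j, rfl⟩ : ∃ j, m = j + 1 := ⟨m - 1, by omega⟩
        have h3 := hnorm _ (hmain j).2
        rw [show 2 * (j + 1) = 2 * j + 2 by ring]
        linarith
    · have h3 := (hmain m).1
      have h4 : ‖y (2 * m + 1)‖ ≤ ‖y (2 * m + 1) - 1‖ + 1 := by
        have := norm_add_le (y (2 * m + 1) - 1) 1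
        rwa [sub_add_cancel, norm_one] at this
      have h5 : 1 / (d : ℝ) ^ 2 ≤ 0.1 := by
        rw [div_le_iff₀ (by positivity)]
        nlinarith
      linarith
  have hcb : ‖c‖ ≤ 3 / 2 := by
    by_contra hcon
    push Not at hcon
    have h3 : (3 / 2 : ℝ) ^ 2 ≤ ‖c‖ ^ (d - 1) := by
      calc (3 / 2 : ℝ) ^ 2 ≤ (3 / 2) ^ (d - 1) := pow_le_pow_right₀ (by norm_num) (by omega)
        _ ≤ ‖c‖ ^ (d - 1) := pow_le_pow_left₀ (by norm_num) hcon.le _
    rw [← norm_pow, ← hu] at h3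
    norm_num at h3
    linarith
  rw [mem_multibrot_iff hd2]
  intro k
  rw [hP, norm_mul]
  have := hyb k
  nlinarith [norm_nonneg c, norm_nonneg (y k)]

end Pool.Agent.H285R3.MB
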