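import Mathlib
import Pool.Prelude.Def_F_c31e40fa
import Pool.Agent.H713R2.AR.PR

set_option autoImplicit false

open Complex Topology Filter Metric MeasureTheory Set N62a1eb23

namespace Pool.Agent.H285R3.MB

open Pool.Agent.H713R2 Pool.Agent.H712R2

/-- the width of the annulus of order `k` -/
noncomputable def kap (d k : ℕ) : ℝ := (k + 3) * Real.log d / (d - 1)

section num

variable {d k : ℕ}

theorem d_ge (hd : 4 ^ (k + 3) ≤ d) : 64 ≤ d := by
  have : 4 ^ 3 ≤ 4 ^ (k + 3) := Nat.pow_le_pow_right (by norm_num) (by omega)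
  omega

theorem d_geR (hd : 4 ^ (k + 3) ≤ d) : (64 : ℝ) ≤ d := by exact_mod_cast d_ge hd

theorem log_one (hd : 4 ^ (k + 3) ≤ d) : 1 ≤ Real.log d := by
  have h1 := d_geR hd
  rw [Real.le_log_iff_exp_le (by linarith)]
  linarith [Real.exp_one_lt_d9]

theorem kap_pos (hd : 4 ^ (k + 3) ≤ d) : 0 < kap d k := by
  have h1 := d_geR hd
  have h2 := log_one hd
  unfold kap
  apply div_pos _ (by linarith)
  positivity

theorem kap_le_one (hd : 4 ^ (k + 3) ≤ d) : kap d k ≤ 1 := by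
  have h1 := d_geR hd
  have h2 := log_one hd
  have hd0 : (0 : ℝ) < d := by linarith
  unfold kap
  rw [div_le_one (by linarith)]
  set q : ℝ := Real.sqrt d with hq
  have hq2 : q * q = d := Real.mul_self_sqrt hd0.le
  have hq1 : 1 ≤ q := by
    rw [hq]; exact Real.one_le_sqrt.mpr (by linarith)
  have h3 : Real.log d ≤ 2 * (q - 1) := by
    have h4 : Real.log d = 2 * Real.log q := by
      rw [← hq2, Real.log_mul (by positivity) (by positivity)]; ring
    rw [h4]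
    have := Real.log_le_sub_one_of_pos (show 0 < q by linarith)
    linarith
  have h5 : (k : ℝ) + 3 ≤ q / 2 := by
    have h6 : ((2 : ℝ) ^ (k + 3)) ^ 2 ≤ q ^ 2 := by
      rw [← pow_mul, mul_comm (k + 3) 2, pow_mul]
      norm_num
      rw [sq, hq2]
      exact_mod_cast hd
    have h7 : (2 : ℝ) ^ (k + 3) ≤ q := le_of_sq_le_sq h6 (by linarith)
    have h8 : k + 3 ≤ 2 ^ (k + 2) := by
      have : k + 2 < 2 ^ (k + 2) := Nat.lt_two_pow_self
      omega
    have h9 : ((k : ℝ) + 3) ≤ 2 ^ (k + 2) := by exact_mod_cast h8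
    have h10 : (2 : ℝ) ^ (k + 3) = 2 * 2 ^ (k + 2) := by rw [pow_succ]; ring
    linarith
  nlinarith

theorem exp_kap (hd : 4 ^ (k + 3) ≤ d) : Real.exp (-kap d k) ^ (d - 1) = 1 / (d : ℝ) ^ (k + 3) := by
  have h1 := d_geR hd
  have hd0 : (0 : ℝ) < d := by linarith
  have h2 : ((d - 1 : ℕ) : ℝ) = d - 1 := by
    have := d_ge hd
    rw [Nat.cast_sub (by omega)]; norm_num
  rw [← Real.exp_nat_mul, h2]
  have h3 : ((d : ℝ) - 1) * -kap d k = -(((k + 3 : ℕ) : ℝ) * Real.log d) := by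
    unfold kap
    have : (d : ℝ) - 1 ≠ 0 := by linarith
    field_simp
    push_cast
    ring
  rw [h3, Real.exp_neg, Real.exp_nat_mul, Real.exp_log hd0, one_div]

theorem two_le_exp_kap (hd : 4 ^ (k + 3) ≤ d) : 2 ≤ Real.exp (kap d k) ^ (d - 1) := by
  have h1 := exp_kap hd
  rw [Real.exp_neg, inv_pow, one_div, inv_inj] at h1
  rw [h1]
  have h2 := d_geR hd
  calc (2 : ℝ) ≤ d ^ 1 := by rw [pow_one]; linarith
    _ ≤ d ^ (k + 3) := pow_le_pow_right₀ (by linarith) (by omega)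

end num

theorem mono_step {d : ℕ} (hd : 2 ≤ d) {c : ℂ} {k : ℕ} (hck : ‖c‖ ≤ ‖P d k c‖)
    (h2 : 2 ≤ ‖P d k c‖ ^ (d - 1)) (j : ℕ) : ‖P d k c‖ ≤ ‖P d (k + j) c‖ := by
  induction j with
  | zero => simp
  | succ j ih =>
    rw [show k + (j + 1) = (k + j) + 1 by ring, P_succ]
    have h4 : ‖(P d (k + j) c) ^ d‖ - ‖c‖ ≤ ‖(P d (k + j) c) ^ d + c‖ := by
      have := norm_sub_le ((P d (k + j) c) ^ d + c) c
      rw [add_sub_cancel_right] at this
      linarith
    have h5 : ‖(P d (k + j) c) ^ d‖ = ‖P d (k + j) c‖ ^ (d - 1) * ‖P d (k + j) c‖ := by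
      rw [norm_pow, ← pow_succ]; congr 1; omega
    have h6 : 2 ≤ ‖P d (k + j) c‖ ^ (d - 1) :=
      h2.trans (pow_le_pow_left₀ (norm_nonneg _) ih _)
    nlinarith [norm_nonneg (P d (k + j) c)]

theorem pow_le_two_of_lt_one {d : ℕ} (hd : 2 ≤ d) {c : ℂ} {m : ℕ} (hm : 1 ≤ m)
    (h : ‖P d m c‖ < 1) (j : ℕ) (hj : 1 ≤ j) (hjm : j ≤ m) : ‖P d j c‖ ^ (d - 1) ≤ 2 := by
  have hP1 : P d 1 c = c := P_one hd c
  have hc : ‖c‖ ^ (d - 1) ≤ 2 := by
    by_contra hcon
    have h1 := mono_step hd (c := c) (k := 1) (by rw [hP1]) (by rw [hP1]; linarith) (m - 1)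
    rw [hP1, show 1 + (m - 1) = m by omega] at h1
    have h2 : ‖c‖ ^ (d - 1) ≤ 1 := pow_le_one₀ (norm_nonneg _) (by linarith)
    linarith
  by_contra hcon
  rcases le_total ‖c‖ ‖P d j c‖ with h1 | h1
  · have h2 := mono_step hd h1 (by linarith) (m - j)
    rw [show j + (m - j) = m by omega] at h2
    have h3 : ‖P d j c‖ ^ (d - 1) ≤ 1 := pow_le_one₀ (norm_nonneg _) (by linarith)
    linarith
  · exact hcon ((pow_le_pow_left₀ (norm_nonneg _) h1 _).trans hc)

theorem pow_sub_pow_le (a b : ℂ) {M : ℝ} (ha : ‖a‖ ≤ M) (hb : ‖b‖ ≤ M) (m : ℕ) :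
    ‖a ^ (m + 1) - b ^ (m + 1)‖ ≤ (m + 1) * M ^ m * ‖a - b‖ := by
  have hM : 0 ≤ M := (norm_nonneg a).trans ha
  induction m with
  | zero => simp
  | succ m ih =>
    have h1 : a ^ (m + 1 + 1) - b ^ (m + 1 + 1) =
        a ^ (m + 1) * (a - b) + (a ^ (m + 1) - b ^ (m + 1)) * b := by ring
    rw [h1]
    have h2 : ‖a ^ (m + 1) * (a - b)‖ ≤ M ^ (m + 1) * ‖a - b‖ := by
      rw [norm_mul, norm_pow]
      exact mul_le_mul_of_nonneg_right (pow_le_pow_left₀ (norm_nonneg _) ha _) (norm_nonneg _)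
    have h3 : ‖(a ^ (m + 1) - b ^ (m + 1)) * b‖ ≤ (m + 1) * M ^ m * ‖a - b‖ * M := by
      rw [norm_mul]
      exact mul_le_mul ih hb (norm_nonneg _) (by positivity)
    calc ‖a ^ (m + 1) * (a - b) + (a ^ (m + 1) - b ^ (m + 1)) * b‖
        ≤ M ^ (m + 1) * ‖a - b‖ + (m + 1) * M ^ m * ‖a - b‖ * M :=
          (norm_add_le _ _).trans (add_le_add h2 h3)
      _ = ((m + 1 : ℕ) + 1) * M ^ (m + 1) * ‖a - b‖ := by push_cast; ring

theorem innerK {d k : ℕ} (hd : 4 ^ (k + 3) ≤ d) {c : ℂ}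
    (hc : ‖P d (k + 1) c‖ ≤ Real.exp (-kap d k)) : c ∈ multibrotSet d := by
  have hd64 := d_ge hd
  have hd2 : 2 ≤ d := by omega
  have hdR := d_geR hd
  have hd0 : (0 : ℝ) < d := by linarith
  have hk0 := kap_pos hd
  have hk1 := kap_le_one hd
  set τ : ℝ := Real.exp (-kap d k) with hτ
  have hτ0 : 0 < τ := Real.exp_pos _
  have hτ1 : τ < 1 := by
    rw [hτ, ← Real.exp_zero]
    exact Real.exp_lt_exp.mpr (by linarith)
  have hτp : τ ^ (d - 1) = 1 / (d : ℝ) ^ (k + 3) := exp_kap hd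
  set ρ : ℝ := (1 + 1 / d) * τ with hρ
  have hρ0 : 0 < ρ := by positivity
  have hρ2 : ρ ≤ 2 := by
    have : 1 / (d : ℝ) ≤ 1 := by rw [div_le_one hd0]; linarith
    nlinarith
  have hb : ∀ j, 1 ≤ j → j ≤ k + 1 → ‖P d j c‖ ^ (d - 1) ≤ 2 :=
    pow_le_two_of_lt_one hd2 (by omega) (hc.trans_lt hτ1)
  have hρp : ρ ^ (d - 1) ≤ 3 / (d : ℝ) ^ (k + 3) := by
    rw [hρ, mul_pow, hτp]
    have h1 : (1 + 1 / (d : ℝ)) ^ (d - 1) ≤ 3 := by
      calc (1 + 1 / (d : ℝ)) ^ (d - 1) ≤ (1 + 1 / (d : ℝ)) ^ d :=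
            pow_le_pow_right₀ (by
              have : 0 < 1 / (d : ℝ) := by positivity
              linarith) (by omega)
        _ ≤ Real.exp (1 / d) ^ d := by
            apply pow_le_pow_left₀ (by positivity)
            have := Real.add_one_le_exp (1 / (d : ℝ))
            linarith
        _ = Real.exp 1 := by
            rw [← Real.exp_nat_mul]; congr 1; field_simp
        _ ≤ 3 := by linarith [Real.exp_one_lt_d9]
    calc (1 + 1 / (d : ℝ)) ^ (d - 1) * (1 / (d : ℝ) ^ (k + 3)) ≤ 3 * (1 / (d : ℝ) ^ (k + 3)) :=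
          mul_le_mul_of_nonneg_right h1 (by positivity)
      _ = 3 / (d : ℝ) ^ (k + 3) := by ring
  -- the error bound
  have herr : ∀ j, j ≤ k → (3 * (d : ℝ)) ^ j * ρ ^ d ≤ ρ / (16 * (d : ℝ) ^ 2) := by
    intro j hj
    have h1 : ρ ^ d = ρ ^ (d - 1) * ρ := by rw [← pow_succ]; congr 1; omega
    have h2 : (3 * (d : ℝ)) ^ j ≤ (3 * (d : ℝ)) ^ k :=
      pow_le_pow_right₀ (by linarith) hj
    have h3 : (3 : ℝ) ^ (k + 1) * 16 ≤ d := by
      have h4 : 3 ^ (k + 1) * 16 ≤ 4 ^ (k + 3) := by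
        have h41 : 3 ^ (k + 1) ≤ 4 ^ (k + 1) := Nat.pow_le_pow_left (by norm_num) _
        have h42 : 4 ^ (k + 3) = 4 ^ (k + 1) * 16 := by
          rw [show k + 3 = (k + 1) + 2 by ring, pow_add 4 (k + 1) 2]; norm_num
        rw [h42]
        exact Nat.mul_le_mul_right 16 h41
      exact_mod_cast h4.trans hd
    calc (3 * (d : ℝ)) ^ j * ρ ^ d ≤ (3 * (d : ℝ)) ^ k * (3 / (d : ℝ) ^ (k + 3) * ρ) := by
          rw [h1]
          apply mul_le_mul h2 _ (by positivity) (by positivity)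
          exact mul_le_mul_of_nonneg_right hρp hρ0.le
      _ = (3 : ℝ) ^ (k + 1) / (d : ℝ) ^ 3 * ρ := by
          rw [mul_pow, pow_add, pow_succ (3 : ℝ) k]
          field_simp
      _ ≤ ρ / (16 * (d : ℝ) ^ 2) := by
          rw [div_mul_eq_mul_div, div_le_div_iff₀ (by positivity) (by positivity)]
          nlinarith [mul_le_mul_of_nonneg_right h3 (show 0 ≤ ρ * (d : ℝ) ^ 2 by positivity)]
  have hsmall : ρ / (16 * (d : ℝ) ^ 2) ≤ 1 / (3 * d) := by
    rw [div_le_div_iff₀ (by positivity) (by positivity)]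
    nlinarith
  have key : ∀ x : ℂ, ‖x‖ ≤ ρ → ∀ j, j ≤ k →
      ‖(fc d c)^[j + 1] x - P d (j + 1) c‖ ≤ (3 * (d : ℝ)) ^ j * ρ ^ d := by
    intro x hx j
    induction j with
    | zero =>
      intro _
      have hP1 : P d 1 c = c := P_one hd2 c
      have h1 : (fc d c)^[0 + 1] x = x ^ d + c := rfl
      rw [zero_add, hP1, pow_zero, one_mul]
      rw [zero_add] at h1
      rw [h1, add_sub_cancel_right, norm_pow]
      exact pow_le_pow_left₀ (norm_nonneg _) hx _
    | succ j ih =>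
      intro hj
      have h1 := ih (by omega)
      set a : ℂ := (fc d c)^[j + 1] x with ha
      set b : ℂ := P d (j + 1) c with hbb
      have h2 : (fc d c)^[j + 1 + 1] x - P d (j + 1 + 1) c = a ^ d - b ^ d := by
        rw [Function.iterate_succ_apply', P_succ]
        show (a ^ d + c) - (b ^ d + c) = a ^ d - b ^ d
        ring
      rw [h2]
      have h3 : ‖b‖ ^ (d - 1) ≤ 2 := hb (j + 1) (by omega) (by omega)
      have he : ‖a - b‖ ≤ 1 / (3 * d) := (h1.trans (herr j (by omega))).trans hsmall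
      set B : ℝ := max ‖b‖ 1 with hB
      have hB1 : 1 ≤ B := le_max_right _ _
      have hBp : B ^ (d - 1) ≤ 2 := by
        rcases le_total ‖b‖ 1 with h | h
        · rw [hB, max_eq_right h, one_pow]; norm_num
        · rw [hB, max_eq_left h]; exact h3
      set M : ℝ := B * (1 + 1 / (3 * d)) with hM
      have hpos : 0 < 1 / (3 * (d : ℝ)) := by positivity
      have hbM : ‖b‖ ≤ M := by
        have : ‖b‖ ≤ B := le_max_left _ _
        nlinarith
      have haM : ‖a‖ ≤ M := by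
        have h4 : ‖a‖ ≤ ‖a - b‖ + ‖b‖ := by
          have := norm_add_le (a - b) b
          rwa [sub_add_cancel] at this
        have : ‖b‖ ≤ B := le_max_left _ _
        nlinarith
      have hMp : M ^ (d - 1) ≤ 3 := by
        rw [hM, mul_pow]
        have h5 : (1 + 1 / (3 * (d : ℝ))) ^ (d - 1) ≤ 3 / 2 := by
          calc (1 + 1 / (3 * (d : ℝ))) ^ (d - 1) ≤ (1 + 1 / (3 * (d : ℝ))) ^ d :=
                pow_le_pow_right₀ (by linarith) (by omega)
            _ ≤ Real.exp (1 / (3 * d)) ^ d := by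
                apply pow_le_pow_left₀ (by positivity)
                have := Real.add_one_le_exp (1 / (3 * (d : ℝ)))
                linarith
            _ = Real.exp (1 / 3) := by
                rw [← Real.exp_nat_mul]; congr 1; field_simp
            _ ≤ 3 / 2 := by
                have h6 : Real.exp (1 / 3) ^ 3 ≤ (3 / 2 : ℝ) ^ 3 := by
                  rw [← Real.exp_nat_mul]
                  norm_num
                  linarith [Real.exp_one_lt_d9]
                exact le_of_pow_le_pow_left₀ (by norm_num) (by norm_num) h6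
        calc B ^ (d - 1) * (1 + 1 / (3 * (d : ℝ))) ^ (d - 1) ≤ 2 * (3 / 2) :=
              mul_le_mul hBp h5 (by positivity) (by norm_num)
          _ = 3 := by norm_num
      have h7 := pow_sub_pow_le a b haM hbM (d - 1)
      rw [show d - 1 + 1 = d by omega] at h7
      have h8 : ((d - 1 : ℕ) : ℝ) + 1 = d := by
        rw [Nat.cast_sub (by omega)]; push_cast; ring
      rw [h8] at h7
      calc ‖a ^ d - b ^ d‖ ≤ d * M ^ (d - 1) * ‖a - b‖ := h7
        _ ≤ d * 3 * ((3 * (d : ℝ)) ^ j * ρ ^ d) := by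
            apply mul_le_mul _ h1 (norm_nonneg _) (by positivity)
            exact mul_le_mul_of_nonneg_left hMp hd0.le
        _ = (3 * (d : ℝ)) ^ (j + 1) * ρ ^ d := by rw [pow_succ]; ring
  have hPb : ∀ j, 1 ≤ j → j ≤ k + 1 → ‖P d j c‖ ≤ 3 / 2 := by
    intro j h1 h2
    by_contra hcon
    push Not at hcon
    have h3 : (3 / 2 : ℝ) ^ 2 ≤ ‖P d j c‖ ^ (d - 1) := by
      calc (3 / 2 : ℝ) ^ 2 ≤ (3 / 2) ^ (d - 1) := pow_le_pow_right₀ (by norm_num) (by omega)
        _ ≤ ‖P d j c‖ ^ (d - 1) := pow_le_pow_left₀ (by norm_num) hcon.le _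
    have h4 := hb j h1 h2
    norm_num at h3
    linarith
  have hret : ∀ x : ℂ, ‖x‖ ≤ ρ → ‖(fc d c)^[k + 1] x‖ ≤ ρ := by
    intro x hx
    have h1 := (key x hx k le_rfl).trans (herr k le_rfl)
    have h2 : ‖(fc d c)^[k + 1] x‖ ≤ ‖(fc d c)^[k + 1] x - P d (k + 1) c‖ + ‖P d (k + 1) c‖ := by
      have := norm_add_le ((fc d c)^[k + 1] x - P d (k + 1) c) (P d (k + 1) c)
      rwa [sub_add_cancel] at this
    have h3 : ρ / (16 * (d : ℝ) ^ 2) ≤ 1 / d * τ := by
      rw [hρ, one_div_mul_eq_div, div_le_div_iff₀ (by positivity) hd0]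
      have h4 : (1 + 1 / (d : ℝ)) ≤ 2 := by
        have : 1 / (d : ℝ) ≤ 1 := by rw [div_le_one hd0]; linarith
        linarith
      nlinarith [mul_le_mul_of_nonneg_right h4 (show 0 ≤ τ * (d : ℝ) by positivity),
        mul_pos hτ0 hd0]
    rw [hρ]
    linarith
  have hall : ∀ x : ℂ, ‖x‖ ≤ ρ → ∀ j, j ≤ k + 1 → ‖(fc d c)^[j] x‖ ≤ 2 := by
    intro x hx j hj
    rcases Nat.eq_zero_or_pos j with rfl | hj0
    · exact hx.trans hρ2
    · obtain ⟨i, rfl⟩ : ∃ i, j = i + 1 := ⟨j - 1, by omega⟩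
      have h1 := (key x hx i (by omega)).trans ((herr i (by omega)).trans hsmall)
      have h2 : ‖(fc d c)^[i + 1] x‖ ≤ ‖(fc d c)^[i + 1] x - P d (i + 1) c‖ + ‖P d (i + 1) c‖ := by
        have := norm_add_le ((fc d c)^[i + 1] x - P d (i + 1) c) (P d (i + 1) c)
        rwa [sub_add_cancel] at this
      have h3 := hPb (i + 1) (by omega) hj
      have h4 : 1 / (3 * (d : ℝ)) ≤ 1 / 2 := by
        rw [div_le_div_iff₀ (by positivity) (by norm_num)]; linarith
      linarith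
  have hq : ∀ q : ℕ, ‖(fc d c)^[(k + 1) * q] 0‖ ≤ ρ := by
    intro q
    induction q with
    | zero => simp [hρ0.le]
    | succ q ih =>
      rw [show (k + 1) * (q + 1) = (k + 1) + (k + 1) * q by ring, Function.iterate_add_apply]
      exact hret _ ih
  rw [mem_multibrot_iff hd2]
  intro m
  have h1 : P d m c = (fc d c)^[m % (k + 1)] ((fc d c)^[(k + 1) * (m / (k + 1))] 0) := by
    rw [← Function.iterate_add_apply, Nat.mod_add_div]
    rfl
  rw [h1]
  exact hall _ (hq _) _ (Nat.mod_lt _ (by omega)).le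

theorem outerK {d k : ℕ} (hd : 4 ^ (k + 3) ≤ d) {c : ℂ} (hc : c ∈ multibrotSet d) :
    ‖P d (k + 1) c‖ ≤ (2 : ℝ) ^ ((1 : ℝ) / (d - 1)) := by
  have hd64 := d_ge hd
  have hd2 : 2 ≤ d := by omega
  have hdR := d_geR hd
  have hP1 : P d 1 c = c := P_one hd2 c
  have hesc : ∀ j, ‖c‖ ≤ ‖P d j c‖ → ‖P d j c‖ ^ (d - 1) ≤ 2 := by
    intro j hj
    by_contra hcon
    push Not at hcon
    have hb := (mem_multibrot_iff hd2 c).mp hc
    set δ : ℝ := ‖P d j c‖ ^ (d - 1) - 2 with hδ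
    have hδ0 : 0 < δ := by rw [hδ]; linarith
    have hR : 0 < ‖P d j c‖ := by
      by_contra h3
      have h4 : ‖P d j c‖ = 0 := le_antisymm (not_lt.mp h3) (norm_nonneg _)
      rw [h4, zero_pow (by omega)] at hcon
      linarith
    have key : ∀ i, ‖P d j c‖ * (1 + δ) ^ i ≤ ‖P d (j + i) c‖ := by
      intro i
      induction i with
      | zero => simp
      | succ i ih =>
        have h1 : ‖P d j c‖ ≤ ‖P d (j + i) c‖ := mono_step hd2 hj hcon.le i
        have h3 : P d (j + (i + 1)) c = (P d (j + i) c) ^ d + c := by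
          rw [show j + (i + 1) = (j + i) + 1 by ring, P_succ]
        rw [h3]
        have h4 : ‖(P d (j + i) c) ^ d‖ - ‖c‖ ≤ ‖(P d (j + i) c) ^ d + c‖ := by
          have := norm_sub_le ((P d (j + i) c) ^ d + c) c
          rw [add_sub_cancel_right] at this
          linarith
        have h5 : ‖(P d (j + i) c) ^ d‖ = ‖P d (j + i) c‖ ^ (d - 1) * ‖P d (j + i) c‖ := by
          rw [norm_pow, ← pow_succ]; congr 1; omega
        have h6 : 2 + δ ≤ ‖P d (j + i) c‖ ^ (d - 1) := by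
          have := pow_le_pow_left₀ hR.le h1 (d - 1)
          rw [hδ]; linarith
        have h7 : (2 + δ) * ‖P d (j + i) c‖ ≤ ‖P d (j + i) c‖ ^ (d - 1) * ‖P d (j + i) c‖ :=
          mul_le_mul_of_nonneg_right h6 (norm_nonneg _)
        have h8 : ‖P d j c‖ * (1 + δ) ^ (i + 1) ≤ (1 + δ) * ‖P d (j + i) c‖ := by
          rw [pow_succ]
          nlinarith
        have h9 : ‖c‖ ≤ ‖P d (j + i) c‖ := hj.trans h1
        nlinarith
    obtain ⟨i, hi⟩ := pow_unbounded_of_one_lt (2 / ‖P d j c‖) (show (1 : ℝ) < 1 + δ by linarith)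
    have h1 := key i
    have h3 := hb (j + i)
    rw [div_lt_iff₀ hR] at hi
    nlinarith
  have h1 : ‖P d (k + 1) c‖ ^ (d - 1) ≤ 2 := by
    rcases le_total ‖c‖ ‖P d (k + 1) c‖ with h | h
    · exact hesc _ h
    · refine (pow_le_pow_left₀ (norm_nonneg _) h _).trans ?_
      have := hesc 1 (by rw [hP1])
      rwa [hP1] at this
  have h2 : ((d - 1 : ℕ) : ℝ) = d - 1 := by
    rw [Nat.cast_sub (by omega)]; norm_num
  have h3 : ((2 : ℝ) ^ ((1 : ℝ) / (d - 1))) ^ (d - 1) = 2 := by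
    rw [← Real.rpow_natCast, ← Real.rpow_mul (by norm_num), h2, one_div,
      inv_mul_cancel₀ (by linarith), Real.rpow_one]
  exact le_of_pow_le_pow_left₀ (by omega) (by positivity) (h1.trans h3.symm.le)

theorem two_rpow_le {d k : ℕ} (hd : 4 ^ (k + 3) ≤ d) :
    (2 : ℝ) ^ ((1 : ℝ) / (d - 1)) ≤ Real.exp (kap d k) := by
  have hd64 := d_ge hd
  have hdR := d_geR hd
  have h2 : ((d - 1 : ℕ) : ℝ) = d - 1 := by
    rw [Nat.cast_sub (by omega)]; norm_num
  have h3 : ((2 : ℝ) ^ ((1 : ℝ) / (d - 1))) ^ (d - 1) = 2 := by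
    rw [← Real.rpow_natCast, ← Real.rpow_mul (by norm_num), h2, one_div,
      inv_mul_cancel₀ (by linarith), Real.rpow_one]
  exact le_of_pow_le_pow_left₀ (n := d - 1) (by omega) (Real.exp_pos _).le
    (h3.le.trans (two_le_exp_kap hd))

end Pool.Agent.H285R3.MB
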