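import Mathlib

set_option autoImplicit false

open Complex Topology Filter Metric MeasureTheory Set

namespace Pool.Agent.H285R3.MB

/-- logarithms of zero free functions on the disc -/
theorem exists_log {G : ℂ → ℂ} (hG : DifferentiableOn ℂ G (ball 0 1))
    (h0 : ∀ x ∈ ball (0 : ℂ) 1, G x ≠ 0) (h1 : G 0 = 1) :
    ∃ H : ℂ → ℂ, DifferentiableOn ℂ H (ball 0 1) ∧ H 0 = 0 ∧
      ∀ x ∈ ball (0 : ℂ) 1, Complex.exp (H x) = G x := by
  have hGd : DifferentiableOn ℂ (deriv G) (ball 0 1) := hG.deriv isOpen_ball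
  have hL : DifferentiableOn ℂ (fun x => deriv G x / G x) (ball 0 1) := hGd.div hG h0
  obtain ⟨H₀, hH₀⟩ := hL.isExactOn_ball
  set H : ℂ → ℂ := fun x => H₀ x - H₀ 0 with hH
  have hHd : ∀ x ∈ ball (0 : ℂ) 1, HasDerivAt H (deriv G x / G x) x := fun x hx =>
    (hH₀ x hx).sub_const _
  refine ⟨H, fun x hx => (hHd x hx).differentiableAt.differentiableWithinAt, by simp [hH], ?_⟩
  have hF : ∀ x ∈ ball (0 : ℂ) 1, HasDerivAt (fun y => Complex.exp (-(H y)) * G y) 0 x := by
    intro x hx
    have h2 := ((hHd x hx).neg.cexp).mul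
      ((hG.differentiableAt (isOpen_ball.mem_nhds hx)).hasDerivAt)
    have h3 : deriv G x / G x * G x = deriv G x := div_mul_cancel₀ _ (h0 x hx)
    refine h2.congr_deriv ?_
    linear_combination (-(Complex.exp (-(H x)))) * h3
  have hconst : ∀ x ∈ ball (0 : ℂ) 1, Complex.exp (-(H x)) * G x = 1 := by
    intro x hx
    have h3 : (fun y => Complex.exp (-(H y)) * G y) x = (fun y => Complex.exp (-(H y)) * G y) 0 := by
      apply (convex_ball (0 : ℂ) 1).is_const_of_fderivWithin_eq_zero (𝕜 := ℂ) (fun y hy =>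
        (hF y hy).differentiableAt.differentiableWithinAt) ?_ hx (mem_ball_self one_pos)
      intro y hy
      rw [fderivWithin_of_isOpen isOpen_ball hy]
      ext
      simp [(hF y hy).hasFDerivAt.fderiv]
    simp only at h3
    rw [h3]
    simp [hH, h1]
  intro x hx
  have h4 := hconst x hx
  rw [Complex.exp_neg] at h4
  have h5 := Complex.exp_ne_zero (H x)
  field_simp at h4
  exact h4.symm

theorem cos_one_ge : (1 / 2 : ℝ) ≤ Real.cos 1 := by
  have := Real.cos_one_pos
  have h2 := Real.one_sub_sq_div_two_le_cos (x := 1)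
  norm_num at h2
  linarith

theorem jn {H : ℂ → ℂ} (hH : DifferentiableOn ℂ H (ball 0 1)) {κ : ℝ} (hκ : 0 < κ)
    (hre : ∀ z ∈ ball (0 : ℂ) 1, |(H z).re| ≤ κ) {ρ ℓ : ℝ} (α lam : ℝ) (hρ0 : 0 < ρ) (hρ1 : ρ < 1)
    (hℓ0 : 0 < ℓ) (hℓ : ℓ ≤ 2 * Real.pi) :
    volume {θ : ℝ | θ ∈ Icc (α - ℓ / 2) (α + ℓ / 2) ∧
      2 * κ * lam ≤ |(H (circleMap 0 ρ θ)).im -
        (H (ρ * ((1 - ℓ / (2 * Real.pi) : ℝ) : ℂ) * Complex.exp (α * I))).im|} ≤
      ENNReal.ofReal (24 * Real.pi * ℓ * Real.exp (-lam)) := by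
  have hpi := Real.pi_pos
  set δ : ℝ := ℓ / (2 * Real.pi) with hδ
  have hδ0 : 0 < δ := by positivity
  have hδ1 : δ ≤ 1 := by rw [hδ, div_le_one (by positivity)]; exact hℓ
  set w : ℂ := ρ * ((1 - δ : ℝ) : ℂ) * Complex.exp (α * I) with hw
  have hwn : ‖w‖ = ρ * (1 - δ) := by
    rw [hw, norm_mul, norm_mul, Complex.norm_exp_ofReal_mul_I, mul_one, Complex.norm_real,
      Complex.norm_real, Real.norm_eq_abs, Real.norm_eq_abs, abs_of_pos hρ0,
      abs_of_nonneg (by linarith)]
  have hwρ : w ∈ ball (0 : ℂ) ρ := by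
    rw [mem_ball_zero_iff, hwn]; nlinarith
  have hw1 : w ∈ ball (0 : ℂ) 1 := ball_subset_ball hρ1.le hwρ
  have hcb : closedBall (0 : ℂ) ρ ⊆ ball 0 1 := closedBall_subset_ball hρ1
  -- the test functions
  set E : ℝ → ℂ → ℂ := fun s z => Complex.exp (s * I * (H z - H w)) with hE
  have hEd : ∀ s, DiffContOnCl ℂ (E s) (ball 0 ρ) := by
    intro s
    apply DifferentiableOn.diffContOnCl
    rw [closure_ball _ hρ0.ne']
    have h1 : DifferentiableOn ℂ H (closedBall 0 ρ) := hH.mono hcb
    exact ((h1.sub_const _).const_mul _).cexp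
  have hav : ∀ s, Real.circleAverage (poissonKernel 0 w • E s) 0 ρ = 1 := by
    intro s
    rw [(hEd s).circleAverage_poissonKernel_smul hwρ]
    simp [hE]
  have hcirc : ∀ θ, circleMap 0 ρ θ ∈ ball (0 : ℂ) 1 := fun θ =>
    hcb (by rw [mem_closedBall_zero_iff, norm_circleMap_zero, abs_of_pos hρ0])
  have hHc : Continuous fun θ => H (circleMap 0 ρ θ) :=
    hH.continuousOn.comp_continuous (continuous_circleMap 0 ρ) hcirc
  have hden : ∀ θ, circleMap 0 ρ θ - 0 - (w - 0) ≠ 0 := by
    intro θ h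
    rw [sub_zero, sub_zero, sub_eq_zero] at h
    have h1 : ‖circleMap 0 ρ θ‖ = ρ := by rw [norm_circleMap_zero, abs_of_pos hρ0]
    rw [h, hwn] at h1
    nlinarith
  have hPc : Continuous fun θ => poissonKernel 0 w (circleMap 0 ρ θ) := by
    simp only [poissonKernel_def]
    apply Continuous.div
    · fun_prop
    · fun_prop
    · intro θ
      exact pow_ne_zero 2 (norm_ne_zero_iff.mpr (hden θ))
  have hEc : ∀ s, Continuous fun θ => E s (circleMap 0 ρ θ) := by
    intro s
    simp only [hE]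
    exact ((hHc.sub continuous_const).const_smul (s * I)).cexp
  set μ : ℝ := 1 / (2 * κ) with hμ
  have hμ0 : 0 < μ := by positivity
  set F : ℝ → ℝ := fun θ => poissonKernel 0 w (circleMap 0 ρ θ) *
    ((E μ (circleMap 0 ρ θ)).re + (E (-μ) (circleMap 0 ρ θ)).re) with hF
  have hFc : Continuous F :=
    hPc.mul ((Complex.continuous_re.comp (hEc μ)).add (Complex.continuous_re.comp (hEc (-μ))))
  set η : ℝ := α - Real.pi with hη
  have hint : ∀ s, ∫ θ in η..(η + 2 * Real.pi), poissonKernel 0 w (circleMap 0 ρ θ) *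
      (E s (circleMap 0 ρ θ)).re = 2 * Real.pi := by
    intro s
    have h1 := hav s
    rw [Real.circleAverage_eq_integral_add η] at h1
    have h2 : (∫ θ in (0 : ℝ)..2 * Real.pi, (poissonKernel 0 w • E s) (circleMap 0 ρ (θ + η))) =
        2 * Real.pi := by
      have h3 : (2 * Real.pi : ℂ) ≠ 0 := by
        simp [Real.pi_ne_zero]
      have h4 : ((2 * Real.pi)⁻¹ : ℝ) • (∫ θ in (0 : ℝ)..2 * Real.pi,
          (poissonKernel 0 w • E s) (circleMap 0 ρ (θ + η))) = 1 := h1
      rw [Complex.real_smul] at h4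
      push_cast at h4
      rw [inv_mul_eq_one₀ h3] at h4
      exact h4.symm
    rw [intervalIntegral.integral_comp_add_right
      (f := fun t => (poissonKernel 0 w • E s) (circleMap 0 ρ t)), zero_add] at h2
    have h5 := congrArg Complex.re h2
    rw [show (2 * Real.pi + η) = η + 2 * Real.pi by ring] at h5
    have h6 : (∫ t in η..(η + 2 * Real.pi), (poissonKernel 0 w • E s) (circleMap 0 ρ t)).re =
        ∫ t in η..(η + 2 * Real.pi), ((poissonKernel 0 w • E s) (circleMap 0 ρ t)).re := by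
      have h7 := Complex.reCLM.intervalIntegral_comp_comm (μ := volume) (a := η)
        (b := η + 2 * Real.pi) (f := fun t => (poissonKernel 0 w • E s) (circleMap 0 ρ t)) ?_
      · exact h7.symm
      · apply Continuous.intervalIntegrable
        exact hPc.smul (hEc s)
    rw [h6] at h5
    have h8 : (2 * (Real.pi : ℂ)).re = 2 * Real.pi := by simp
    rw [h8] at h5
    refine Eq.trans ?_ h5
    apply intervalIntegral.integral_congr
    intro t _
    simp
  have hFint : ∫ θ in η..(η + 2 * Real.pi), F θ = 4 * Real.pi := by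
    have h1 : ∀ θ, F θ = poissonKernel 0 w (circleMap 0 ρ θ) * (E μ (circleMap 0 ρ θ)).re +
        poissonKernel 0 w (circleMap 0 ρ θ) * (E (-μ) (circleMap 0 ρ θ)).re := fun θ => by
      simp only [hF]; ring
    simp_rw [h1]
    rw [intervalIntegral.integral_add, hint, hint]
    · ring
    · exact (hPc.mul (Complex.continuous_re.comp (hEc μ))).intervalIntegrable _ _
    · exact (hPc.mul (Complex.continuous_re.comp (hEc (-μ)))).intervalIntegrable _ _
  -- lower bounds
  have hEre : ∀ s z, |s| = μ → z ∈ ball (0 : ℂ) 1 →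
      Real.exp (-(s * ((H z).im - (H w).im))) * (1 / 2) ≤ (E s z).re := by
    intro s z hs hz
    have h1 : (E s z).re = Real.exp (-(s * ((H z).im - (H w).im))) *
        Real.cos (s * ((H z).re - (H w).re)) := by
      simp only [hE]
      rw [Complex.exp_re]
      congr 1
      · congr 1
        simp
      · congr 1
        simp
    rw [h1]
    apply mul_le_mul_of_nonneg_left _ (Real.exp_pos _).le
    have h2 : |s * ((H z).re - (H w).re)| ≤ 1 := by
      rw [abs_mul, hs]
      have h3 := hre z hz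
      have h4 := hre w hw1
      have h5 : |(H z).re - (H w).re| ≤ 2 * κ := by
        have := abs_sub (H z).re (H w).re
        linarith
      calc μ * |(H z).re - (H w).re| ≤ μ * (2 * κ) := mul_le_mul_of_nonneg_left h5 hμ0.le
        _ = 1 := by rw [hμ]; field_simp
    rw [← Real.cos_abs]
    refine cos_one_ge.trans ?_
    exact Real.cos_le_cos_of_nonneg_of_le_pi (abs_nonneg _) (by linarith [Real.pi_gt_three]) h2
  have hP0 : ∀ θ, 0 ≤ poissonKernel 0 w (circleMap 0 ρ θ) := by
    intro θ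
    rw [poissonKernel_def]
    apply div_nonneg _ (by positivity)
    rw [sub_zero, sub_zero, norm_circleMap_zero, abs_of_pos hρ0, hwn]
    have h1 : ρ ^ 2 - (ρ * (1 - δ)) ^ 2 = ρ ^ 2 * (δ * (2 - δ)) := by ring
    rw [h1]
    exact mul_nonneg (sq_nonneg _) (mul_nonneg hδ0.le (by linarith))
  have hF0 : ∀ θ, 0 ≤ F θ := by
    intro θ
    apply mul_nonneg (hP0 θ)
    have h1 := hEre μ _ (abs_of_pos hμ0) (hcirc θ)
    have h2 := hEre (-μ) _ (by rw [abs_neg, abs_of_pos hμ0]) (hcirc θ)
    have h3 := Real.exp_pos (-(μ * ((H (circleMap 0 ρ θ)).im - (H w).im)))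
    have h4 := Real.exp_pos (-(-μ * ((H (circleMap 0 ρ θ)).im - (H w).im)))
    linarith
  set ε : ℝ := Real.exp lam / (6 * ℓ) with hε
  have hε0 : 0 < ε := by positivity
  have hlow : ∀ θ ∈ Icc (α - ℓ / 2) (α + ℓ / 2),
      2 * κ * lam ≤ |(H (circleMap 0 ρ θ)).im - (H w).im| → ε ≤ F θ := by
    intro θ hθ hle
    have hPl : 1 / (3 * ℓ) ≤ poissonKernel 0 w (circleMap 0 ρ θ) := by
      rw [poissonKernel_def, sub_zero, sub_zero, norm_circleMap_zero, abs_of_pos hρ0, hwn]
      have h1 : ‖circleMap 0 ρ θ - w‖ ≤ ρ * (δ * (Real.pi + 1)) := by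
        have h2 : circleMap 0 ρ θ - w = ρ * Complex.exp (α * I) *
            ((Complex.exp (((θ - α : ℝ) : ℂ) * I) - 1) + δ) := by
          rw [hw, circleMap, zero_add]
          have h3 : Complex.exp (θ * I) = Complex.exp (α * I) *
              Complex.exp (((θ - α : ℝ) : ℂ) * I) := by
            rw [← Complex.exp_add]; congr 1; push_cast; ring
          rw [h3]; push_cast; ring
        rw [h2, norm_mul, norm_mul, Complex.norm_exp_ofReal_mul_I, mul_one, Complex.norm_real,
          Real.norm_eq_abs, abs_of_pos hρ0]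
        apply mul_le_mul_of_nonneg_left _ hρ0.le
        have h4 : ‖Complex.exp (((θ - α : ℝ) : ℂ) * I) - 1‖ ≤ |θ - α| := by
          have := Real.norm_exp_I_mul_ofReal_sub_one_le (x := θ - α)
          rwa [mul_comm, Real.norm_eq_abs] at this
        have h5 : |θ - α| ≤ ℓ / 2 := by
          rw [abs_le]; constructor <;> linarith [hθ.1, hθ.2]
        have h6 : ℓ / 2 = δ * Real.pi := by rw [hδ]; field_simp
        calc ‖Complex.exp (((θ - α : ℝ) : ℂ) * I) - 1 + δ‖ ≤ |θ - α| + δ := by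
              refine (norm_add_le _ _).trans ?_
              rw [Complex.norm_real, Real.norm_eq_abs, abs_of_pos hδ0]
              linarith
          _ ≤ δ * (Real.pi + 1) := by rw [h6] at h5; linarith
      have h7 : ‖circleMap 0 ρ θ - w‖ ^ 2 ≤ (ρ * (δ * (Real.pi + 1))) ^ 2 :=
        pow_le_pow_left₀ (norm_nonneg _) h1 2
      have h8 : 0 < ‖circleMap 0 ρ θ - w‖ ^ 2 := by
        have := hden θ
        rw [sub_zero, sub_zero] at this
        positivity
      rw [le_div_iff₀ h8]
      have h9 : ρ ^ 2 * δ ≤ ρ ^ 2 - (ρ * (1 - δ)) ^ 2 := by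
        have : ρ ^ 2 - (ρ * (1 - δ)) ^ 2 - ρ ^ 2 * δ = ρ ^ 2 * (δ * (1 - δ)) := by ring
        have h10 : 0 ≤ ρ ^ 2 * (δ * (1 - δ)) := by
          apply mul_nonneg (sq_nonneg _) (mul_nonneg hδ0.le (by linarith))
        linarith
      refine le_trans ?_ h9
      have h11 : ℓ = 2 * Real.pi * δ := by rw [hδ]; field_simp
      calc 1 / (3 * ℓ) * ‖circleMap 0 ρ θ - w‖ ^ 2
          ≤ 1 / (3 * ℓ) * (ρ * (δ * (Real.pi + 1))) ^ 2 :=
            mul_le_mul_of_nonneg_left h7 (by positivity)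
        _ = ρ ^ 2 * δ * ((Real.pi + 1) ^ 2 / (6 * Real.pi)) := by
            rw [h11]; field_simp; ring
        _ ≤ ρ ^ 2 * δ * 1 := by
            apply mul_le_mul_of_nonneg_left _ (by positivity)
            rw [div_le_one (by positivity)]
            nlinarith [Real.pi_gt_three, Real.pi_lt_d2]
        _ = ρ ^ 2 * δ := mul_one _
    have h12 : Real.exp lam ≤
        Real.exp (μ * |(H (circleMap 0 ρ θ)).im - (H w).im|) := by
      apply Real.exp_le_exp.mpr
      calc lam = μ * (2 * κ * lam) := by rw [hμ]; field_simp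
        _ ≤ _ := mul_le_mul_of_nonneg_left hle hμ0.le
    have h13 : Real.exp (μ * |(H (circleMap 0 ρ θ)).im - (H w).im|) * (1 / 2) ≤
        (E μ (circleMap 0 ρ θ)).re + (E (-μ) (circleMap 0 ρ θ)).re := by
      have h1 := hEre μ _ (abs_of_pos hμ0) (hcirc θ)
      have h2 := hEre (-μ) _ (by rw [abs_neg, abs_of_pos hμ0]) (hcirc θ)
      have h3 := Real.exp_pos (-(μ * ((H (circleMap 0 ρ θ)).im - (H w).im)))
      have h4 := Real.exp_pos (-(-μ * ((H (circleMap 0 ρ θ)).im - (H w).im)))
      rcases abs_cases ((H (circleMap 0 ρ θ)).im - (H w).im) with ⟨h5, _⟩ | ⟨h5, _⟩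
      · rw [h5]
        have h6 : -(-μ * ((H (circleMap 0 ρ θ)).im - (H w).im)) =
          μ * ((H (circleMap 0 ρ θ)).im - (H w).im) := by ring
        rw [h6] at h2
        linarith
      · rw [h5]
        have h6 : -(μ * ((H (circleMap 0 ρ θ)).im - (H w).im)) =
          μ * -((H (circleMap 0 ρ θ)).im - (H w).im) := by ring
        rw [h6] at h1
        linarith
    calc ε = 1 / (3 * ℓ) * (Real.exp lam * (1 / 2)) := by rw [hε]; field_simp; norm_num
      _ ≤ 1 / (3 * ℓ) * ((E μ (circleMap 0 ρ θ)).re + (E (-μ) (circleMap 0 ρ θ)).re) := by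
          apply mul_le_mul_of_nonneg_left _ (by positivity)
          linarith
      _ ≤ F θ := by
          apply mul_le_mul_of_nonneg_right hPl
          have := Real.exp_pos (μ * |(H (circleMap 0 ρ θ)).im - (H w).im|)
          linarith
  -- Markov
  have hle2 : η ≤ η + 2 * Real.pi := by linarith
  have hmk := mul_meas_ge_le_integral_of_nonneg (μ := volume.restrict (Ioc η (η + 2 * Real.pi)))
    (f := F) (Filter.Eventually.of_forall hF0)
    ((intervalIntegrable_iff_integrableOn_Ioc_of_le hle2).mp (hFc.intervalIntegrable _ _)) ε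
  rw [← intervalIntegral.integral_of_le hle2, hFint] at hmk
  have hmeas : MeasurableSet {x | ε ≤ F x} := (isClosed_le continuous_const hFc).measurableSet
  rw [measureReal_def, Measure.restrict_apply hmeas] at hmk
  have hfin : volume ({x | ε ≤ F x} ∩ Ioc η (η + 2 * Real.pi)) ≠ ⊤ := by
    apply ne_of_lt
    refine (measure_mono inter_subset_right).trans_lt ?_
    rw [Real.volume_Ioc]; exact ENNReal.ofReal_lt_top
  have hsub : {θ : ℝ | θ ∈ Icc (α - ℓ / 2) (α + ℓ / 2) ∧
      2 * κ * lam ≤ |(H (circleMap 0 ρ θ)).im - (H w).im|} ⊆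
      ({x | ε ≤ F x} ∩ Ioc η (η + 2 * Real.pi)) ∪ {η} := by
    intro θ hθ
    by_cases h : θ = η
    · right; exact h
    · left
      refine ⟨hlow θ hθ.1 hθ.2, ?_, ?_⟩
      · rcases lt_or_eq_of_le (show η ≤ θ by rw [hη]; linarith [hθ.1.1]) with h1 | h1
        · exact h1
        · exact absurd h1.symm h
      · rw [hη]; linarith [hθ.1.2]
  calc volume {θ : ℝ | θ ∈ Icc (α - ℓ / 2) (α + ℓ / 2) ∧
      2 * κ * lam ≤ |(H (circleMap 0 ρ θ)).im - (H w).im|}
      ≤ volume (({x | ε ≤ F x} ∩ Ioc η (η + 2 * Real.pi)) ∪ {η}) := measure_mono hsub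
    _ ≤ volume ({x | ε ≤ F x} ∩ Ioc η (η + 2 * Real.pi)) + volume {η} := measure_union_le _ _
    _ = volume ({x | ε ≤ F x} ∩ Ioc η (η + 2 * Real.pi)) := by
        rw [Real.volume_singleton, add_zero]
    _ ≤ ENNReal.ofReal (24 * Real.pi * ℓ * Real.exp (-lam)) := by
        rw [← ENNReal.ofReal_toReal hfin]
        apply ENNReal.ofReal_le_ofReal
        have h1 : (volume ({x | ε ≤ F x} ∩ Ioc η (η + 2 * Real.pi))).toReal ≤
            4 * Real.pi / ε := by
          rw [le_div_iff₀ hε0]; linarith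
        refine h1.trans (le_of_eq ?_)
        rw [hε, Real.exp_neg]
        field_simp
        ring

end Pool.Agent.H285R3.MB
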