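import Mathlib
import Pool.Prelude.Def_F_c31e40fa
import Pool.Agent.H713R2.AR.PR
import Pool.Agent.H285R3.MB.Dyn
import Pool.Agent.H285R3.MB.JN

set_option autoImplicit false

open Complex Topology Filter Metric MeasureTheory Set N62a1eb23

namespace Pool.Agent.H285R3.MB

open Pool.Agent.H713R2 Pool.Agent.H712R2 Pool.Agent.Helper202.Univ

/-- maximum principle up to the boundary of the Multibrot set -/
theorem upper_gen {d : ℕ} (hd : 2 ≤ d) {β : ℂ → ℂ} (hβ : IsBeta d β) {q : ℂ → ℝ}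
    (hq : Continuous q) {A : ℝ} (hA : ∀ c ∈ multibrotSet d, q c ≤ A) {g : ℂ → ℂ}
    (hg : DifferentiableOn ℂ g (ball 0 1))
    (hgq : ∀ x ∈ ball (0 : ℂ) 1, x ≠ 0 → ‖g x‖ ≤ q (x⁻¹ * β x)) {x0 : ℂ}
    (hx0 : x0 ∈ ball (0 : ℂ) 1) : ‖g x0‖ ≤ A := by
  apply le_of_forall_pos_le_add
  intro ε hε
  set D : Set ℂ := ball 0 1 \ {0} with hD
  have hDo : IsOpen D := isOpen_ball.sdiff isClosed_singleton
  set f : ℂ → ℂ := fun x => x⁻¹ * β x with hf
  have hfd : DifferentiableOn ℂ f D := by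
    intro x hx
    have hx0 : x ≠ 0 := hx.2
    apply DifferentiableAt.differentiableWithinAt
    exact (differentiableAt_inv_iff.mpr hx0).mul
      (hβ.diff.differentiableAt (isOpen_ball.mem_nhds hx.1))
  have hfi : InjOn f D := fun x hx y hy h => hβ.inj x hx.1 y hy.1 hx.2 hy.2 h
  set φ : ℂ → ℂ := Function.invFunOn f D with hφ
  set K : Set ℂ := {c | A + ε ≤ q c} ∩ closedBall 0 4 with hK
  have hKc : IsCompact K :=
    (isCompact_closedBall 0 4).inter_left (isClosed_le continuous_const hq)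
  have hKim : K ⊆ f '' D := by
    intro c hc
    have hcM : c ∉ multibrotSet d := by
      intro h
      have h1 := hA c h
      have h2 : A + ε ≤ q c := hc.1
      linarith
    obtain ⟨x, hx, hx0, hxc⟩ := hβ.surj c hcM
    exact ⟨x, ⟨hx, hx0⟩, hxc⟩
  have hφc : ContinuousOn φ K := fun c hc =>
    (differentiableAt_inv hDo hfd hfi (hKim hc)).continuousAt.continuousWithinAt
  have hφK : IsCompact (φ '' K) := hKc.image_of_continuousOn hφc
  have hφD : φ '' K ⊆ ball 0 1 := by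
    rintro _ ⟨c, hc, rfl⟩
    exact (Function.invFunOn_mem (hKim hc)).1
  obtain ⟨r1, hr1, hr1K⟩ : ∃ r1 : ℝ, r1 < 1 ∧ φ '' K ⊆ closedBall 0 r1 := by
    rcases (φ '' K).eq_empty_or_nonempty with he | hne
    · exact ⟨0, by norm_num, by rw [he]; exact empty_subset _⟩
    · obtain ⟨y, hy, hmax⟩ := hφK.exists_isMaxOn hne continuous_norm.continuousOn
      refine ⟨‖y‖, mem_ball_zero_iff.mp (hφD hy), fun z hz => ?_⟩
      rw [mem_closedBall_zero_iff]
      exact hmax hz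
  have hx0n : ‖x0‖ < 1 := mem_ball_zero_iff.mp hx0
  set m : ℝ := max (max r1 ‖x0‖) (1 / 2) with hm
  have hm1 : m < 1 := max_lt (max_lt hr1 hx0n) (by norm_num)
  set r : ℝ := (1 + m) / 2 with hr
  have hrm : m < r := by rw [hr]; linarith
  have hr1' : r < 1 := by rw [hr]; linarith
  have hr1r : r1 < r := ((le_max_left _ _).trans (le_max_left _ _)).trans_lt hrm
  have hxr : ‖x0‖ < r := ((le_max_right _ _).trans (le_max_left _ _)).trans_lt hrm
  have hhr : 1 / 2 < r := (le_max_right _ _).trans_lt hrm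
  have hr0 : 0 < r := by linarith
  have hcb : closedBall (0 : ℂ) r ⊆ ball 0 1 := closedBall_subset_ball hr1'
  have hdc : DiffContOnCl ℂ g (ball 0 r) := by
    apply DifferentiableOn.diffContOnCl
    rw [closure_ball _ hr0.ne']
    exact hg.mono hcb
  apply Complex.norm_le_of_forall_mem_frontier_norm_le isBounded_ball hdc
  · intro x hx
    rw [frontier_ball _ hr0.ne', mem_sphere_zero_iff_norm] at hx
    have hxne : x ≠ 0 := by
      rintro rfl
      rw [norm_zero] at hx; linarith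
    have hx1 : x ∈ ball (0 : ℂ) 1 := by rw [mem_ball_zero_iff, hx]; exact hr1'
    have hxD : x ∈ D := ⟨hx1, hxne⟩
    have hPx : q (f x) ≤ A + ε := by
      by_contra hcon
      have hcon' := not_le.mp hcon
      have hfx4 : f x ∈ closedBall (0 : ℂ) 4 := by
        rw [mem_closedBall_zero_iff, hf]
        simp only
        rw [norm_mul, norm_inv, hx]
        have h1 := hβ.bound x hx1
        rw [inv_mul_le_iff₀ hr0]
        linarith
      have h1 : f x ∈ K := ⟨hcon'.le, hfx4⟩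
      have h2 : φ (f x) = x := hfi.leftInvOn_invFunOn hxD
      have h3 := hr1K (mem_image_of_mem φ h1)
      rw [h2, mem_closedBall_zero_iff, hx] at h3
      linarith
    exact (hgq x hx1 hxne).trans hPx
  · rw [closure_ball _ hr0.ne', mem_closedBall_zero_iff]
    exact hxr.le

/-- `(psi ^ (d - 1) + 1) / w ^ (d - 1)` in the coordinate `x = 1 / w` -/
noncomputable def GG (d : ℕ) (β : ℂ → ℂ) (x : ℂ) : ℂ := β x ^ (d - 1) + x ^ (d - 1)

theorem GG_eq (d : ℕ) (β : ℂ → ℂ) {x : ℂ} (hx : x ≠ 0) :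
    GG d β x = x ^ (d - 1) * ((x⁻¹ * β x) ^ (d - 1) + 1) := by
  unfold GG
  rw [mul_add, mul_one, ← mul_pow, mul_inv_cancel_left₀ hx]

theorem GG_diff {d : ℕ} {β : ℂ → ℂ} (hβ : IsBeta d β) : DifferentiableOn ℂ (GG d β) (ball 0 1) := by
  unfold GG
  exact (hβ.diff.pow _).add (differentiableOn_id.pow _)

theorem GG_zero {d : ℕ} (hd : 2 ≤ d) {β : ℂ → ℂ} (hβ : IsBeta d β) : GG d β 0 = 1 := by
  unfold GG
  rw [hβ.zero, one_pow, zero_pow (by omega), add_zero]

theorem GG_le {d : ℕ} (hd : 200 ≤ d) {β : ℂ → ℂ} (hβ : IsBeta d β) {x : ℂ}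
    (hx : x ∈ ball (0 : ℂ) 1) : ‖GG d β x‖ ≤ 1 + eta d := by
  apply upper_gen (by omega) hβ (q := fun c => ‖c ^ (d - 1) + 1‖) (by fun_prop)
    (fun c hc => outer hd hc) (GG_diff hβ) _ hx
  intro y hy hy0
  rw [GG_eq d β hy0, norm_mul, norm_pow]
  have h1 : ‖y‖ ^ (d - 1) ≤ 1 := pow_le_one₀ (norm_nonneg _) (mem_ball_zero_iff.mp hy).le
  exact mul_le_of_le_one_left (norm_nonneg _) h1

theorem GG_ne {d : ℕ} (hd : 200 ≤ d) {β : ℂ → ℂ} (hβ : IsBeta d β) {x : ℂ}
    (hx : x ∈ ball (0 : ℂ) 1) : GG d β x ≠ 0 := by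
  rcases eq_or_ne x 0 with rfl | hx0
  · rw [GG_zero (by omega) hβ]; exact one_ne_zero
  · rw [GG_eq d β hx0]
    refine mul_ne_zero (pow_ne_zero _ hx0) ?_
    intro h
    apply hβ.notMem x hx hx0
    apply inner hd
    rw [h, norm_zero]
    linarith [eta_le hd]

theorem GG_ge {d : ℕ} (hd : 200 ≤ d) {β : ℂ → ℂ} (hβ : IsBeta d β) {x0 : ℂ}
    (hx0 : x0 ∈ ball (0 : ℂ) 1) : 1 - eta d ≤ ‖GG d β x0‖ := by
  have he := eta_le hd
  have he1 : 0 < 1 - eta d := by linarith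
  have hx0n : ‖x0‖ < 1 := mem_ball_zero_iff.mp hx0
  have key : ∀ r : ℝ, ‖x0‖ < r → r < 1 → r ^ (d - 1) * (1 - eta d) ≤ ‖GG d β x0‖ := by
    intro r hr hr1
    have hr0 : 0 < r := (norm_nonneg _).trans_lt hr
    have hcb : closedBall (0 : ℂ) r ⊆ ball 0 1 := closedBall_subset_ball hr1
    have hdc : DiffContOnCl ℂ (fun x => (GG d β x)⁻¹) (ball 0 r) := by
      apply DifferentiableOn.diffContOnCl
      rw [closure_ball _ hr0.ne']
      exact ((GG_diff hβ).mono hcb).inv fun x hx => GG_ne hd hβ (hcb hx)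
    have h1 : ‖(GG d β x0)⁻¹‖ ≤ (r ^ (d - 1) * (1 - eta d))⁻¹ := by
      apply Complex.norm_le_of_forall_mem_frontier_norm_le isBounded_ball hdc
      · intro x hx
        rw [frontier_ball _ hr0.ne', mem_sphere_zero_iff_norm] at hx
        have hxne : x ≠ 0 := by
          rintro rfl
          rw [norm_zero] at hx; linarith
        have hx1 : x ∈ ball (0 : ℂ) 1 := by rw [mem_ball_zero_iff, hx]; exact hr1
        rw [norm_inv, GG_eq d β hxne, norm_mul, norm_pow, hx]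
        apply inv_anti₀ (by positivity)
        apply mul_le_mul_of_nonneg_left _ (by positivity)
        by_contra hcon
        exact hβ.notMem x hx1 hxne (inner hd (not_le.mp hcon).le)
      · rw [closure_ball _ hr0.ne', mem_closedBall_zero_iff]
        exact hr.le
    rw [norm_inv] at h1
    exact (inv_le_inv₀ (norm_pos_iff.mpr (GG_ne hd hβ hx0)) (by positivity)).mp h1
  have hlim : Tendsto (fun r : ℝ => r ^ (d - 1) * (1 - eta d)) (𝓝[<] 1)
      (𝓝 ((1 : ℝ) ^ (d - 1) * (1 - eta d))) := by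
    apply Tendsto.mono_left _ nhdsWithin_le_nhds
    exact ((continuous_pow (d - 1)).mul continuous_const).tendsto 1
  rw [one_pow, one_mul] at hlim
  refine le_of_tendsto hlim ?_
  have h2 : ∀ᶠ r : ℝ in 𝓝[<] 1, ‖x0‖ < r := by
    apply eventually_nhdsWithin_of_eventually_nhds
    exact eventually_gt_nhds hx0n
  filter_upwards [h2, self_mem_nhdsWithin] with r hr1 hr2
  exact key r hr1 hr2

theorem exists_HH {d : ℕ} (hd : 200 ≤ d) {β : ℂ → ℂ} (hβ : IsBeta d β) :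
    ∃ H : ℂ → ℂ, DifferentiableOn ℂ H (ball 0 1) ∧ H 0 = 0 ∧
      (∀ x ∈ ball (0 : ℂ) 1, Complex.exp (H x) = GG d β x) ∧
      ∀ x ∈ ball (0 : ℂ) 1, |(H x).re| ≤ 2 * eta d := by
  obtain ⟨H, hH, hH0, hHe⟩ := exists_log (GG_diff hβ) (fun x hx => GG_ne hd hβ hx)
    (GG_zero (by omega) hβ)
  refine ⟨H, hH, hH0, hHe, ?_⟩
  intro x hx
  have he := eta_le hd
  have he0 := eta_pos hd
  have h1 : ‖GG d β x‖ = Real.exp (H x).re := by rw [← hHe x hx, Complex.norm_exp]
  have h2 := GG_le hd hβ hx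
  have h3 := GG_ge hd hβ hx
  rw [h1] at h2 h3
  rw [abs_le]
  constructor
  · -- exp (-(2 eta)) <= 1 - eta
    by_contra hcon
    push Not at hcon
    have h4 : Real.exp (H x).re < Real.exp (-(2 * eta d)) := Real.exp_lt_exp.mpr hcon
    have h5 : Real.exp (-(2 * eta d)) ≤ 1 - eta d := by
      have h6 := Real.one_sub_inv_le_log_of_pos (show 0 < 1 - eta d by linarith)
      rw [← Real.le_log_iff_exp_le (by linarith)]
      refine le_trans ?_ h6
      have h7 : (1 - eta d)⁻¹ ≤ 1 + 2 * eta d := by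
        rw [inv_le_iff_one_le_mul₀ (by linarith)]
        nlinarith
      linarith
    linarith
  · by_contra hcon
    push Not at hcon
    have h4 : (H x).re + 1 ≤ Real.exp (H x).re := Real.add_one_le_exp _
    linarith

theorem norm_exp_sub_one (a b : ℝ) (ha : |a| ≤ 1) :
    ‖Complex.exp (a + b * I) - 1‖ ≤ 2 * |a| + 3 * |b| := by
  have h1 : Complex.exp (a + b * I) - 1 =
      Complex.exp a * (Complex.exp (b * I) - 1) + (Complex.exp a - 1) := by
    rw [Complex.exp_add]; ring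
  rw [h1]
  have h2 : ‖Complex.exp (a : ℂ)‖ ≤ 3 := by
    rw [Complex.norm_exp, Complex.ofReal_re]
    have h3 := Real.exp_one_lt_d9
    have h4 : Real.exp a ≤ Real.exp 1 := Real.exp_le_exp.mpr (le_of_abs_le ha)
    linarith
  have h5 : ‖Complex.exp (b * I) - 1‖ ≤ |b| := by
    have := Real.norm_exp_I_mul_ofReal_sub_one_le (x := b)
    rwa [mul_comm, Real.norm_eq_abs] at this
  have h6 : ‖Complex.exp (a : ℂ) - 1‖ ≤ 2 * |a| := by
    have := Complex.norm_exp_sub_one_le (x := (a : ℂ)) (by rwa [Complex.norm_real])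
    rwa [Complex.norm_real, Real.norm_eq_abs] at this
  refine (norm_add_le _ _).trans ?_
  rw [norm_mul]
  have h7 : ‖Complex.exp (a : ℂ)‖ * ‖Complex.exp (b * I) - 1‖ ≤ 3 * |b| :=
    mul_le_mul h2 h5 (norm_nonneg _) (by norm_num)
  linarith

/-- the bad set at a fixed radius -/
theorem bad_radius {d : ℕ} (hd : 200 ≤ d) {β : ℂ → ℂ} (hβ : IsBeta d β) {H : ℂ → ℂ}
    (hH : DifferentiableOn ℂ H (ball 0 1))
    (hHe : ∀ x ∈ ball (0 : ℂ) 1, Complex.exp (H x) = GG d β x)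
    (hHr : ∀ x ∈ ball (0 : ℂ) 1, |(H x).re| ≤ 2 * eta d) {r ℓ : ℝ} (α lam : ℝ) (hr : 1 < r)
    (hℓ0 : 0 < ℓ) (hℓ : ℓ ≤ 2 * Real.pi) :
    volume {θ : ℝ | θ ∈ Icc (α - ℓ / 2) (α + ℓ / 2) ∧
      (12 * lam + 4) * eta d * r ^ (d - 1) ≤ ‖((r * Complex.exp (θ * I)) *
          β (r * Complex.exp (θ * I))⁻¹) ^ (d - 1) + 1 -
        Complex.exp ((H (((r⁻¹ : ℝ) : ℂ) * ((1 - ℓ / (2 * Real.pi) : ℝ) : ℂ) *
          Complex.exp (((-α : ℝ) : ℂ) * I))).im * I) * (r * Complex.exp (θ * I)) ^ (d - 1)‖} ≤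
      ENNReal.ofReal (24 * Real.pi * ℓ * Real.exp (-lam)) := by
  have he := eta_le hd
  have he0 := eta_pos hd
  have hr0 : 0 < r := by linarith
  set s : ℝ := (H (((r⁻¹ : ℝ) : ℂ) * ((1 - ℓ / (2 * Real.pi) : ℝ) : ℂ) *
          Complex.exp (((-α : ℝ) : ℂ) * I))).im with hs
  have hjn := jn hH (κ := 2 * eta d) (by linarith) hHr (ρ := r⁻¹) (ℓ := ℓ) (-α) lam
    (inv_pos.mpr hr0) (inv_lt_one_of_one_lt₀ hr) hℓ0 hℓ
  rw [← hs] at hjn
  refine le_trans ?_ hjn
  set S : Set ℝ := {θ : ℝ | θ ∈ Icc (-α - ℓ / 2) (-α + ℓ / 2) ∧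
      2 * (2 * eta d) * lam ≤ |(H (circleMap 0 r⁻¹ θ)).im - s|} with hS
  rw [← Measure.measure_preimage_neg volume S]
  apply measure_mono
  rintro θ ⟨hθ1, hθ2⟩
  refine ⟨⟨?_, ?_⟩, ?_⟩
  · show -α - ℓ / 2 ≤ -θ
    linarith [hθ1.2]
  · show -θ ≤ -α + ℓ / 2
    linarith [hθ1.1]
  · by_contra hcon
    push Not at hcon
    set w : ℂ := r * Complex.exp (θ * I) with hw
    have hwn : ‖w‖ = r := by
      rw [hw, norm_mul, Complex.norm_exp_ofReal_mul_I, mul_one, Complex.norm_real,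
        Real.norm_eq_abs, abs_of_pos hr0]
    have hw1 : 1 < ‖w‖ := by rw [hwn]; exact hr
    obtain ⟨hb1, hb2⟩ := inv_mem_ball hw1
    have hcm : circleMap 0 r⁻¹ (-θ) = w⁻¹ := by
      rw [hw, circleMap, zero_add, mul_inv, ← Complex.exp_neg]
      push_cast
      congr 2
      ring
    rw [hcm] at hcon
    have h1 : (w * β w⁻¹) ^ (d - 1) + 1 = w ^ (d - 1) * GG d β w⁻¹ := by
      have hw0 : w ≠ 0 := fun h => hb2 (by rw [h, inv_zero])
      unfold GG
      rw [mul_add, mul_pow, ← mul_pow w w⁻¹, mul_inv_cancel₀ hw0, one_pow]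
    rw [h1, ← hHe _ hb1] at hθ2
    have h2 : w ^ (d - 1) * Complex.exp (H w⁻¹) - Complex.exp (s * I) * w ^ (d - 1) =
        w ^ (d - 1) * Complex.exp (s * I) *
          (Complex.exp (((H w⁻¹).re : ℂ) + (((H w⁻¹).im - s : ℝ) : ℂ) * I) - 1) := by
      have h3 : Complex.exp (H w⁻¹) = Complex.exp (s * I) *
          Complex.exp (((H w⁻¹).re : ℂ) + (((H w⁻¹).im - s : ℝ) : ℂ) * I) := by
        rw [← Complex.exp_add]
        congr 1
        conv_lhs => rw [← Complex.re_add_im (H w⁻¹)]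
        push_cast
        ring
      rw [h3]; ring
    rw [h2, norm_mul, norm_mul, norm_pow, hwn, Complex.norm_exp_ofReal_mul_I, mul_one] at hθ2
    have h4 := norm_exp_sub_one (H w⁻¹).re ((H w⁻¹).im - s) (by
      have := hHr _ hb1
      linarith)
    have h5 := hHr _ hb1
    have h6 : 0 < r ^ (d - 1) := by positivity
    have h7 : (12 * lam + 4) * eta d ≤
        ‖Complex.exp (((H w⁻¹).re : ℂ) + (((H w⁻¹).im - s : ℝ) : ℂ) * I) - 1‖ := by
      rw [mul_comm ((12 * lam + 4) * eta d)] at hθ2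
      exact le_of_mul_le_mul_left hθ2 h6
    have h8 : |(H w⁻¹).im - s| < 4 * eta d * lam := by
      have h9 : |(H w⁻¹).im - s| < 2 * (2 * eta d) * lam := hcon
      linarith
    nlinarith

end Pool.Agent.H285R3.MB
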