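import Mathlib
import Pool.Prelude.Def_F_c31e40fa
import Pool.Agent.H285R3.MB.Ext
import Pool.Agent.H285R3.MB.DynK

set_option autoImplicit false

open Complex Topology Filter Metric MeasureTheory Set N62a1eb23

namespace Pool.Agent.H285R3.MB

open Pool.Agent.H713R2 Pool.Agent.H712R2 Pool.Agent.Helper202.Univ

section

variable {d k : ℕ} (hd : 4 ^ (k + 3) ≤ d) {β : ℂ → ℂ} (hβ : IsBeta d β)

include hd hβ

theorem BK_eq {x : ℂ} (hx : x ≠ 0) : BB d β k x = x ^ (d ^ k) * P d (k + 1) (x⁻¹ * β x) :=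
  BB_eq (by have := d_ge hd; omega) β k x hx

theorem BK_zero : BB d β k 0 = 1 := by
  rw [BB_at_zero (by have := d_ge hd; omega), hβ.zero, one_pow]

theorem BK_le' {x : ℂ} (hx : x ∈ ball (0 : ℂ) 1) :
    ‖BB d β k x‖ ≤ (2 : ℝ) ^ ((1 : ℝ) / (d - 1)) := by
  apply upper_gen (by have := d_ge hd; omega) hβ (q := fun c => ‖P d (k + 1) c‖)
    (continuous_P d _).norm (fun c hc => outerK hd hc) (BB_diff hβ.diff k) _ hx
  intro y hy hy0
  rw [BK_eq hd hβ hy0, norm_mul, norm_pow]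
  have h1 : ‖y‖ ^ (d ^ k) ≤ 1 := pow_le_one₀ (norm_nonneg _) (mem_ball_zero_iff.mp hy).le
  exact mul_le_of_le_one_left (norm_nonneg _) h1

theorem BK_le {x : ℂ} (hx : x ∈ ball (0 : ℂ) 1) : ‖BB d β k x‖ ≤ Real.exp (kap d k) :=
  (BK_le' hd hβ hx).trans (two_rpow_le hd)

theorem BK_ne {x : ℂ} (hx : x ∈ ball (0 : ℂ) 1) : BB d β k x ≠ 0 := by
  rcases eq_or_ne x 0 with rfl | hx0
  · rw [BK_zero hd hβ]; exact one_ne_zero
  · rw [BK_eq hd hβ hx0]
    refine mul_ne_zero (pow_ne_zero _ hx0) ?_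
    intro h
    apply hβ.notMem x hx hx0
    apply innerK hd
    rw [h, norm_zero]
    exact (Real.exp_pos _).le

theorem BK_ge {x0 : ℂ} (hx0 : x0 ∈ ball (0 : ℂ) 1) :
    Real.exp (-kap d k) ≤ ‖BB d β k x0‖ := by
  set e : ℝ := Real.exp (-kap d k) with he
  have he0 : 0 < e := Real.exp_pos _
  have hx0n : ‖x0‖ < 1 := mem_ball_zero_iff.mp hx0
  have key : ∀ r : ℝ, ‖x0‖ < r → r < 1 → r ^ (d ^ k) * e ≤ ‖BB d β k x0‖ := by
    intro r hr hr1
    have hr0 : 0 < r := (norm_nonneg _).trans_lt hr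
    have hcb : closedBall (0 : ℂ) r ⊆ ball 0 1 := closedBall_subset_ball hr1
    have hdc : DiffContOnCl ℂ (fun x => (BB d β k x)⁻¹) (ball 0 r) := by
      apply DifferentiableOn.diffContOnCl
      rw [closure_ball _ hr0.ne']
      exact ((BB_diff hβ.diff k).mono hcb).inv fun x hx => BK_ne hd hβ (hcb hx)
    have h1 : ‖(BB d β k x0)⁻¹‖ ≤ (r ^ (d ^ k) * e)⁻¹ := by
      apply Complex.norm_le_of_forall_mem_frontier_norm_le isBounded_ball hdc
      · intro x hx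
        rw [frontier_ball _ hr0.ne', mem_sphere_zero_iff_norm] at hx
        have hxne : x ≠ 0 := by
          rintro rfl
          rw [norm_zero] at hx; linarith
        have hx1 : x ∈ ball (0 : ℂ) 1 := by rw [mem_ball_zero_iff, hx]; exact hr1
        rw [norm_inv, BK_eq hd hβ hxne, norm_mul, norm_pow, hx]
        apply inv_anti₀ (by positivity)
        apply mul_le_mul_of_nonneg_left _ (by positivity)
        by_contra hcon
        exact hβ.notMem x hx1 hxne (innerK hd (not_le.mp hcon).le)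
      · rw [closure_ball _ hr0.ne', mem_closedBall_zero_iff]
        exact hr.le
    rw [norm_inv] at h1
    exact (inv_le_inv₀ (norm_pos_iff.mpr (BK_ne hd hβ hx0)) (by positivity)).mp h1
  have hlim : Tendsto (fun r : ℝ => r ^ (d ^ k) * e) (𝓝[<] 1) (𝓝 ((1 : ℝ) ^ (d ^ k) * e)) := by
    apply Tendsto.mono_left _ nhdsWithin_le_nhds
    exact ((continuous_pow (d ^ k)).mul continuous_const).tendsto 1
  rw [one_pow, one_mul] at hlim
  refine le_of_tendsto hlim ?_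
  have h2 : ∀ᶠ r : ℝ in 𝓝[<] 1, ‖x0‖ < r := by
    apply eventually_nhdsWithin_of_eventually_nhds
    exact eventually_gt_nhds hx0n
  filter_upwards [h2, self_mem_nhdsWithin] with r hr1 hr2
  exact key r hr1 hr2

theorem exists_HK :
    ∃ H : ℂ → ℂ, DifferentiableOn ℂ H (ball 0 1) ∧ H 0 = 0 ∧
      (∀ x ∈ ball (0 : ℂ) 1, Complex.exp (H x) = BB d β k x) ∧
      ∀ x ∈ ball (0 : ℂ) 1, |(H x).re| ≤ kap d k := by
  obtain ⟨H, hH, hH0, hHe⟩ := exists_log (BB_diff hβ.diff k) (fun x hx => BK_ne hd hβ hx)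
    (BK_zero hd hβ)
  refine ⟨H, hH, hH0, hHe, ?_⟩
  intro x hx
  have h1 : ‖BB d β k x‖ = Real.exp (H x).re := by rw [← hHe x hx, Complex.norm_exp]
  have h2 := BK_le hd hβ hx
  have h3 := BK_ge hd hβ hx
  rw [h1] at h2 h3
  rw [abs_le]
  exact ⟨Real.exp_le_exp.mp h3, Real.exp_le_exp.mp h2⟩

/-- the bad set at a fixed radius -/
theorem bad_radiusK {H : ℂ → ℂ}
    (hH : DifferentiableOn ℂ H (ball 0 1))
    (hHe : ∀ x ∈ ball (0 : ℂ) 1, Complex.exp (H x) = BB d β k x)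
    (hHr : ∀ x ∈ ball (0 : ℂ) 1, |(H x).re| ≤ kap d k) {r ℓ : ℝ} (α lam : ℝ) (hr : 1 < r)
    (hℓ0 : 0 < ℓ) (hℓ : ℓ ≤ 2 * Real.pi) :
    volume {θ : ℝ | θ ∈ Icc (α - ℓ / 2) (α + ℓ / 2) ∧
      (6 * lam + 2) * kap d k * r ^ (d ^ k) ≤ ‖P d (k + 1) ((r * Complex.exp (θ * I)) *
          β (r * Complex.exp (θ * I))⁻¹) -
        Complex.exp ((H (((r⁻¹ : ℝ) : ℂ) * ((1 - ℓ / (2 * Real.pi) : ℝ) : ℂ) *
          Complex.exp (((-α : ℝ) : ℂ) * I))).im * I) * (r * Complex.exp (θ * I)) ^ (d ^ k)‖} ≤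
      ENNReal.ofReal (24 * Real.pi * ℓ * Real.exp (-lam)) := by
  have hk0 := kap_pos hd
  have hk1 := kap_le_one hd
  have hr0 : 0 < r := by linarith
  set s : ℝ := (H (((r⁻¹ : ℝ) : ℂ) * ((1 - ℓ / (2 * Real.pi) : ℝ) : ℂ) *
          Complex.exp (((-α : ℝ) : ℂ) * I))).im with hs
  have hjn := jn hH (κ := kap d k) hk0 hHr (ρ := r⁻¹) (ℓ := ℓ) (-α) lam
    (inv_pos.mpr hr0) (inv_lt_one_of_one_lt₀ hr) hℓ0 hℓ
  rw [← hs] at hjn
  refine le_trans ?_ hjn
  set S : Set ℝ := {θ : ℝ | θ ∈ Icc (-α - ℓ / 2) (-α + ℓ / 2) ∧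
      2 * kap d k * lam ≤ |(H (circleMap 0 r⁻¹ θ)).im - s|} with hS
  rw [← Measure.measure_preimage_neg volume S]
  apply measure_mono
  rintro θ ⟨hθ1, hθ2⟩
  refine ⟨⟨?_, ?_⟩, ?_⟩
  · show -α - ℓ / 2 ≤ -θ
    linarith [hθ1.2]
  · show -θ ≤ -α + ℓ / 2
    linarith [hθ1.1]
  · by_contra hcon
    push Not at hcon
    set w : ℂ := r * Complex.exp (θ * I) with hw
    have hwn : ‖w‖ = r := by
      rw [hw, norm_mul, Complex.norm_exp_ofReal_mul_I, mul_one, Complex.norm_real,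
        Real.norm_eq_abs, abs_of_pos hr0]
    have hw1 : 1 < ‖w‖ := by rw [hwn]; exact hr
    obtain ⟨hb1, hb2⟩ := inv_mem_ball hw1
    have hcm : circleMap 0 r⁻¹ (-θ) = w⁻¹ := by
      rw [hw, circleMap, zero_add, mul_inv, ← Complex.exp_neg]
      push_cast
      congr 2
      ring
    rw [hcm] at hcon
    have h1 : P d (k + 1) (w * β w⁻¹) = w ^ (d ^ k) * BB d β k w⁻¹ := by
      have hw0 : w ≠ 0 := fun h => hb2 (by rw [h, inv_zero])
      rw [BK_eq hd hβ hb2, inv_inv, ← mul_assoc, ← mul_pow, mul_inv_cancel₀ hw0, one_pow, one_mul]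
    rw [h1, ← hHe _ hb1] at hθ2
    have h2 : w ^ (d ^ k) * Complex.exp (H w⁻¹) - Complex.exp (s * I) * w ^ (d ^ k) =
        w ^ (d ^ k) * Complex.exp (s * I) *
          (Complex.exp (((H w⁻¹).re : ℂ) + (((H w⁻¹).im - s : ℝ) : ℂ) * I) - 1) := by
      have h3 : Complex.exp (H w⁻¹) = Complex.exp (s * I) *
          Complex.exp (((H w⁻¹).re : ℂ) + (((H w⁻¹).im - s : ℝ) : ℂ) * I) := by
        rw [← Complex.exp_add]
        congr 1
        conv_lhs => rw [← Complex.re_add_im (H w⁻¹)]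
        push_cast
        ring
      rw [h3]; ring
    rw [h2, norm_mul, norm_mul, norm_pow, hwn, Complex.norm_exp_ofReal_mul_I, mul_one] at hθ2
    have h4 := norm_exp_sub_one (H w⁻¹).re ((H w⁻¹).im - s) (by
      have := hHr _ hb1
      linarith)
    have h5 := hHr _ hb1
    have h6 : 0 < r ^ (d ^ k) := by positivity
    have h7 : (6 * lam + 2) * kap d k ≤
        ‖Complex.exp (((H w⁻¹).re : ℂ) + (((H w⁻¹).im - s : ℝ) : ℂ) * I) - 1‖ := by
      rw [mul_comm ((6 * lam + 2) * kap d k)] at hθ2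
      exact le_of_mul_le_mul_left hθ2 h6
    nlinarith

end

end Pool.Agent.H285R3.MB
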