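import Mathlib
import Pool.Prelude.Def_F_c31e40fa
import Pool.Agent.H285R3.MB.ExtK

set_option autoImplicit false

open Complex Topology Filter Metric MeasureTheory Set N62a1eb23

namespace Pool.Agent.H285R3.MB

open Pool.Agent.H713R2 Pool.Agent.H712R2

theorem modulusK {d k : ℕ} (hd : 4 ^ (k + 3) ≤ d) {ψ : ℂ → ℂ}
    (hψ : IsExteriorMap (multibrotSet d) ψ) {w : ℂ} (hw : 1 < ‖w‖) :
    Real.exp (-kap d k) * ‖w‖ ^ (d ^ k) ≤ ‖P d (k + 1) (ψ w)‖ ∧
      ‖P d (k + 1) (ψ w)‖ ≤ (2 : ℝ) ^ ((1 : ℝ) / (d - 1)) * ‖w‖ ^ (d ^ k) := by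
  obtain ⟨β, hβ⟩ := exists_beta (d := d) (by have := d_ge hd; omega)
  rw [exteriorMap_unique hβ hψ hw]
  obtain ⟨hb1, hb2⟩ := inv_mem_ball hw
  have hw0 : w ≠ 0 := fun h => hb2 (by rw [h, inv_zero])
  have h1 : P d (k + 1) (w * β w⁻¹) = w ^ (d ^ k) * BB d β k w⁻¹ := by
    rw [BK_eq hd hβ hb2, inv_inv, ← mul_assoc, ← mul_pow, mul_inv_cancel₀ hw0, one_pow, one_mul]
  rw [h1, norm_mul, norm_pow, mul_comm (‖w‖ ^ (d ^ k))]
  have h2 := BK_le' hd hβ hb1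
  have h3 := BK_ge hd hβ hb1
  have h4 : 0 ≤ ‖w‖ ^ (d ^ k) := by positivity
  exact ⟨mul_le_mul_of_nonneg_right h3 h4, mul_le_mul_of_nonneg_right h2 h4⟩

theorem circle_badK {d k : ℕ} (hd : 4 ^ (k + 3) ≤ d) {ψ : ℂ → ℂ}
    (hψ : IsExteriorMap (multibrotSet d) ψ)
    {r ℓ : ℝ} (α : ℝ) (hr : 1 < r) (hℓ0 : 0 < ℓ) (hℓ : ℓ ≤ 2 * Real.pi) :
    ∃ s : ℝ, (ℓ = 2 * Real.pi → s = 0) ∧ ∀ lam : ℝ,
      volume {θ : ℝ | θ ∈ Icc (α - ℓ / 2) (α + ℓ / 2) ∧
        (6 * lam + 2) * kap d k * r ^ (d ^ k) ≤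
          ‖P d (k + 1) (ψ (r * Complex.exp (θ * I))) -
            Complex.exp (s * I) * (r * Complex.exp (θ * I)) ^ (d ^ k)‖} ≤
      ENNReal.ofReal (24 * Real.pi * ℓ * Real.exp (-lam)) := by
  obtain ⟨β, hβ⟩ := exists_beta (d := d) (by have := d_ge hd; omega)
  obtain ⟨H, hH, hH0, hHe, hHr⟩ := exists_HK hd hβ
  refine ⟨(H (((r⁻¹ : ℝ) : ℂ) * ((1 - ℓ / (2 * Real.pi) : ℝ) : ℂ) *
    Complex.exp (((-α : ℝ) : ℂ) * I))).im, ?_, fun lam => ?_⟩
  rotate_left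
  · refine le_trans (measure_mono ?_) (bad_radiusK hd hβ hH hHe hHr α lam hr hℓ0 hℓ)
    rintro θ ⟨hθ1, hθ2⟩
    refine ⟨hθ1, ?_⟩
    have hwn : 1 < ‖(r : ℂ) * Complex.exp (θ * I)‖ := by
      rw [norm_mul, Complex.norm_exp_ofReal_mul_I, mul_one, Complex.norm_real,
        Real.norm_eq_abs, abs_of_pos (by linarith)]
      exact hr
    rw [exteriorMap_unique hβ hψ hwn] at hθ2
    exact hθ2
  · intro h
    have h1 : (1 - ℓ / (2 * Real.pi) : ℝ) = 0 := by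
      rw [h, div_self (by positivity), sub_self]
    rw [h1]
    simp [hH0]

theorem landing_badK {d k : ℕ} (hd : 4 ^ (k + 3) ≤ d) {ψ : ℂ → ℂ}
    (hψ : IsExteriorMap (multibrotSet d) ψ)
    {ℓ : ℝ} (α : ℝ) (hℓ0 : 0 < ℓ) (hℓ : ℓ ≤ 2 * Real.pi) :
    ∃ s : ℝ, (ℓ = 2 * Real.pi → s = 0) ∧ ∀ lam : ℝ,
      volume {θ : ℝ | θ ∈ Icc (α - ℓ / 2) (α + ℓ / 2) ∧
        ∃ c : ℂ, Tendsto (fun r : ℝ => ψ (r * Complex.exp (θ * I))) (𝓝[>] 1) (𝓝 c) ∧
          (6 * lam + 2) * kap d k <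
            ‖P d (k + 1) c - Complex.exp (s * I) * Complex.exp (θ * I) ^ (d ^ k)‖} ≤
      ENNReal.ofReal (24 * Real.pi * ℓ * Real.exp (-lam)) := by
  obtain ⟨β, hβ⟩ := exists_beta (d := d) (by have := d_ge hd; omega)
  obtain ⟨H, hH, hH0, hHe, hHr⟩ := exists_HK hd hβ
  have hpi := Real.pi_pos
  set a : ℂ := ((1 - ℓ / (2 * Real.pi) : ℝ) : ℂ) * Complex.exp (((-α : ℝ) : ℂ) * I) with ha
  have hδ0 : 0 < ℓ / (2 * Real.pi) := by positivity
  have hδ1 : ℓ / (2 * Real.pi) ≤ 1 := by rw [div_le_one (by positivity)]; exact hℓ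
  have ha1 : a ∈ ball (0 : ℂ) 1 := by
    rw [mem_ball_zero_iff, ha, norm_mul, Complex.norm_exp_ofReal_mul_I, mul_one,
      Complex.norm_real, Real.norm_eq_abs, abs_of_nonneg (by linarith)]
    linarith
  refine ⟨(H a).im, ?_, fun lam => ?_⟩
  · intro h
    have h1 : (1 - ℓ / (2 * Real.pi) : ℝ) = 0 := by
      rw [h, div_self (by positivity), sub_self]
    rw [ha, h1]
    simp [hH0]
  -- the rotation numbers at finite radii
  set S : ℝ → ℝ := fun r => (H (((r⁻¹ : ℝ) : ℂ) * ((1 - ℓ / (2 * Real.pi) : ℝ) : ℂ) *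
    Complex.exp (((-α : ℝ) : ℂ) * I))).im with hS
  have hSlim : Tendsto S (𝓝[>] 1) (𝓝 (H a).im) := by
    have h1 : ContinuousAt H a := (hH.differentiableAt (isOpen_ball.mem_nhds ha1)).continuousAt
    have h2 : Tendsto (fun r : ℝ => ((r⁻¹ : ℝ) : ℂ) * ((1 - ℓ / (2 * Real.pi) : ℝ) : ℂ) *
        Complex.exp (((-α : ℝ) : ℂ) * I)) (𝓝[>] 1) (𝓝 a) := by
      have h3 : Tendsto (fun r : ℝ => (r⁻¹ : ℝ)) (𝓝[>] 1) (𝓝 1) := by
        have := (continuousAt_inv₀ (one_ne_zero (α := ℝ))).tendsto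
        rw [inv_one] at this
        exact this.mono_left nhdsWithin_le_nhds
      have h4 := ((Complex.continuous_ofReal.tendsto 1).comp h3).mul_const
        (((1 - ℓ / (2 * Real.pi) : ℝ) : ℂ))
      have h5 := h4.mul_const (Complex.exp (((-α : ℝ) : ℂ) * I))
      rw [Complex.ofReal_one, one_mul, ← ha] at h5
      exact h5
    exact (Complex.continuous_im.tendsto _).comp (h1.tendsto.comp h2)
  set f : ℝ → ℝ → ℝ := fun r θ => ‖P d (k + 1) (ψ (r * Complex.exp (θ * I))) -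
    Complex.exp (S r * I) * (r * Complex.exp (θ * I)) ^ (d ^ k)‖ with hf
  set R : ℕ → ℝ := fun n => 1 + 1 / ((n : ℝ) + 1) with hR
  have hR1 : ∀ n, 1 < R n := fun n => by
    simp only [hR]
    have : 0 < 1 / ((n : ℝ) + 1) := by positivity
    linarith
  have hRlim : Tendsto R atTop (𝓝[>] 1) := by
    rw [tendsto_nhdsWithin_iff]
    refine ⟨?_, Filter.Eventually.of_forall fun n => hR1 n⟩
    have := tendsto_one_div_add_atTop_nhds_zero_nat (𝕜 := ℝ)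
    have h1 := this.const_add 1
    rwa [add_zero] at h1
  set B : ℕ → Set ℝ := fun n => {θ : ℝ | θ ∈ Icc (α - ℓ / 2) (α + ℓ / 2) ∧
    (6 * lam + 2) * kap d k * (R n) ^ (d ^ k) ≤ f (R n) θ} with hB
  have hBm : ∀ n, volume (B n) ≤ ENNReal.ofReal (24 * Real.pi * ℓ * Real.exp (-lam)) := by
    intro n
    refine le_trans (measure_mono ?_) (bad_radiusK hd hβ hH hHe hHr α lam (hR1 n) hℓ0 hℓ)
    rintro θ ⟨hθ1, hθ2⟩
    refine ⟨hθ1, ?_⟩
    have hwn : 1 < ‖(R n : ℂ) * Complex.exp (θ * I)‖ := by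
      rw [norm_mul, Complex.norm_exp_ofReal_mul_I, mul_one, Complex.norm_real,
        Real.norm_eq_abs, abs_of_pos (by linarith [hR1 n])]
      exact hR1 n
    simp only [hf] at hθ2
    rw [exteriorMap_unique hβ hψ hwn] at hθ2
    exact hθ2
  have hsub : {θ : ℝ | θ ∈ Icc (α - ℓ / 2) (α + ℓ / 2) ∧
        ∃ c : ℂ, Tendsto (fun r : ℝ => ψ (r * Complex.exp (θ * I))) (𝓝[>] 1) (𝓝 c) ∧
          (6 * lam + 2) * kap d k <
            ‖P d (k + 1) c - Complex.exp ((H a).im * I) * Complex.exp (θ * I) ^ (d ^ k)‖} ⊆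
      ⋃ n, ⋂ m, B (n + m) := by
    rintro θ ⟨hθ1, c, hc, hlt⟩
    have h1 : Tendsto (fun r : ℝ => f r θ) (𝓝[>] 1) (𝓝 ‖P d (k + 1) c -
        Complex.exp ((H a).im * I) * ((1 : ℝ) * Complex.exp (θ * I)) ^ (d ^ k)‖) := by
      simp only [hf]
      apply Tendsto.norm
      apply Tendsto.sub
      · exact ((continuous_P d (k + 1)).tendsto c).comp hc
      · apply Tendsto.mul
        · apply (Complex.continuous_exp.tendsto _).comp
          exact ((Complex.continuous_ofReal.tendsto _).comp hSlim).mul_const I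
        · apply Tendsto.pow
          apply Tendsto.mul_const
          exact (Complex.continuous_ofReal.tendsto 1).mono_left nhdsWithin_le_nhds
    have h2 : Tendsto (fun r : ℝ => (6 * lam + 2) * kap d k * r ^ (d ^ k)) (𝓝[>] 1)
        (𝓝 ((6 * lam + 2) * kap d k * 1 ^ (d ^ k))) := by
      apply Tendsto.mono_left _ nhdsWithin_le_nhds
      exact (continuous_const.mul (continuous_pow (d ^ k))).tendsto 1
    rw [Complex.ofReal_one, one_mul] at h1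
    rw [one_pow, mul_one] at h2
    have h3 := (h2.comp hRlim).eventually_lt (h1.comp hRlim) hlt
    rw [eventually_atTop] at h3
    obtain ⟨n, hn⟩ := h3
    rw [mem_iUnion]
    refine ⟨n, mem_iInter.mpr fun m => ⟨hθ1, ?_⟩⟩
    exact (hn (n + m) (Nat.le_add_right n m)).le
  refine (measure_mono hsub).trans ?_
  have hmono : Monotone fun n => ⋂ m, B (n + m) := by
    intro n m hnm θ hθ
    rw [mem_iInter] at hθ ⊢
    intro j
    have := hθ (m - n + j)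
    rwa [show n + (m - n + j) = m + j by omega] at this
  rw [hmono.measure_iUnion]
  apply iSup_le
  intro n
  exact (measure_mono (iInter_subset _ 0)).trans (hBm _)

end Pool.Agent.H285R3.MB
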