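import Mathlib
import Pool.Prelude.Def_F_c31e40fa
import Pool.Agent.H285R3.MB.MainK

set_option autoImplicit false

open Complex Topology Filter Metric MeasureTheory Set N62a1eb23

namespace Pool.Agent.H285R3.MB

open Pool.Agent.H713R2 Pool.Agent.H712R2 Pool.Agent.H713R2.AR

theorem ae_of_periodic {p : ℝ → Prop} (hp : ∀ θ : ℝ, ∀ n : ℤ, p θ → p (θ + n • (2 * Real.pi)))
    (h : ∀ᵐ θ ∂(volume.restrict (Ioo (-Real.pi) Real.pi)), p θ) : ∀ᵐ θ : ℝ, p θ := by
  have hpi := Real.pi_pos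
  rw [ae_iff] at h ⊢
  set N : Set ℝ := {θ | ¬ p θ} with hN
  rw [restrict_Ioo_eq_restrict_Ioc] at h
  have h0 : volume (N ∩ Ioc (-Real.pi) Real.pi) = 0 := by
    rwa [Measure.restrict_apply₀' measurableSet_Ioc.nullMeasurableSet] at h
  have hcov : N ⊆ ⋃ n : ℤ, (fun x : ℝ => x + (-(n • (2 * Real.pi)))) ⁻¹'
      (N ∩ Ioc (-Real.pi) Real.pi) := by
    intro θ hθ
    have h1 : θ ∈ (⋃ n : ℤ, Ioc (-Real.pi + n • (2 * Real.pi)) (-Real.pi + (n + 1) • (2 * Real.pi))) := by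
      rw [iUnion_Ioc_add_zsmul (by positivity)]
      exact mem_univ _
    rw [mem_iUnion] at h1 ⊢
    obtain ⟨n, hn1, hn2⟩ := h1
    refine ⟨n, ?_, ?_, ?_⟩
    · intro h2
      apply hθ
      have h3 := hp _ n h2
      simpa using h3
    · show -Real.pi < θ + (-(n • (2 * Real.pi)))
      linarith
    · show θ + (-(n • (2 * Real.pi))) ≤ Real.pi
      rw [add_smul, one_smul] at hn2
      linarith
  apply measure_mono_null hcov
  rw [measure_iUnion_null_iff]
  intro n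
  rw [measure_preimage_add_right]
  exact h0

theorem ae_integrable {d : ℕ} (hd : 2 ≤ d) {ψ : ℂ → ℂ} (hψ : IsExteriorMap (multibrotSet d) ψ) :
    ∀ᵐ θ ∂(volume.restrict (Ioo (-Real.pi) Real.pi)),
      IntegrableOn (fun r : ℝ => ‖deriv ψ (circleMap 0 r θ)‖) (Ioo 1 2) := by
  obtain ⟨β, hβ⟩ := exists_beta hd
  have hpi := Real.pi_pos
  have hext : IsOpen {z : ℂ | 1 < ‖z‖} := isOpen_lt continuous_const continuous_norm
  set A : Set ℂ := {x | 1 < ‖x‖ ∧ ‖x‖ < 2} with hA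
  have hAo : IsOpen A := (isOpen_lt continuous_const continuous_norm).inter
    (isOpen_lt continuous_norm continuous_const)
  have hAm : MeasurableSet A := hAo.measurableSet
  have hinj : InjOn ψ A := hψ.inj.mono fun x hx => hx.1
  have h1 := lintegral_abs_det_fderiv_eq_addHaar_image (volume : Measure ℂ) hAm
    (f := ψ) (f' := fun x => (ContinuousLinearMap.toSpanSingleton ℂ (deriv ψ x)).restrictScalars ℝ)
    (fun x hx => (((hψ.diff.differentiableAt (hext.mem_nhds hx.1)).hasDerivAt.hasFDerivAt).restrictScalars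
      ℝ).hasFDerivWithinAt) hinj
  simp only [det_mul_real] at h1
  have h2 : volume (ψ '' A) ≤ ENNReal.ofReal 4 ^ 2 * NNReal.pi := by
    rw [← Complex.volume_closedBall 0 4]
    apply measure_mono
    rintro _ ⟨x, hx, rfl⟩
    rw [mem_closedBall_zero_iff, exteriorMap_unique hβ hψ hx.1, norm_mul]
    have h3 := hβ.bound x⁻¹ (inv_mem_ball hx.1).1
    have h4 := hx.2
    nlinarith [norm_nonneg x, norm_nonneg (β x⁻¹)]
  rw [← h1, ← lintegral_indicator hAm, ← Complex.lintegral_comp_polarCoord_symm] at h2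
  set S : Set (ℝ × ℝ) := Ioo (1 : ℝ) 2 ×ˢ Ioo (-Real.pi) Real.pi with hS
  have hSm : MeasurableSet S := measurableSet_Ioo.prod measurableSet_Ioo
  have hST : S ⊆ polarCoord.target := by
    rw [polarCoord_target]
    apply prod_mono _ subset_rfl
    intro r hr
    exact lt_trans (by norm_num) hr.1
  have hmem : ∀ q ∈ S, circleMap 0 q.1 q.2 ∈ A ∧ ‖circleMap 0 q.1 q.2‖ = q.1 := by
    intro q hq
    have h3 : ‖circleMap 0 q.1 q.2‖ = q.1 := by
      rw [norm_circleMap_zero, abs_of_pos (lt_trans (by norm_num) hq.1.1)]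
    refine ⟨?_, h3⟩
    rw [hA]
    constructor
    · rw [h3]; exact hq.1.1
    · rw [h3]; exact hq.1.2
  have h3 : ∫⁻ q in S, ENNReal.ofReal (q.1 * ‖deriv ψ (circleMap 0 q.1 q.2)‖ ^ 2) ≤
      ENNReal.ofReal 4 ^ 2 * NNReal.pi := by
    refine le_trans ?_ ((lintegral_mono_set hST).trans h2)
    apply setLIntegral_mono_ae' hSm
    refine Filter.Eventually.of_forall fun q hq => ?_
    obtain ⟨h4, h5⟩ := hmem q hq
    have hq0 : 0 < q.1 := lt_trans (by norm_num) hq.1.1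
    rw [polar_eq_circleMap, indicator_of_mem h4, smul_eq_mul, ← ENNReal.ofReal_mul hq0.le]
    apply ENNReal.ofReal_le_ofReal
    rw [abs_of_nonneg (by positivity)]
  have hdψ : ContinuousOn (deriv ψ) {z : ℂ | 1 < ‖z‖} := (hψ.diff.deriv hext).continuousOn
  have hcont : ContinuousOn (fun q : ℝ × ℝ => q.1 * ‖deriv ψ (circleMap 0 q.1 q.2)‖ ^ 2) S := by
    apply ContinuousOn.mul continuousOn_fst
    apply ContinuousOn.pow
    apply ContinuousOn.norm
    apply hdψ.comp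
    · apply Continuous.continuousOn
      unfold circleMap
      fun_prop
    · intro q hq
      exact (hmem q hq).1.1
  have hae : AEMeasurable (fun q : ℝ × ℝ =>
      ENNReal.ofReal (q.1 * ‖deriv ψ (circleMap 0 q.1 q.2)‖ ^ 2))
      (((volume : Measure ℝ).prod (volume : Measure ℝ)).restrict S) :=
    (hcont.aemeasurable hSm).ennreal_ofReal
  rw [Measure.volume_eq_prod, hS, ← Measure.prod_restrict] at h3
  rw [hS, ← Measure.prod_restrict] at hae
  rw [lintegral_prod_symm _ hae] at h3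
  have hfin : ∫⁻ θ in Ioo (-Real.pi) Real.pi, ∫⁻ r in Ioo (1 : ℝ) 2,
      ENNReal.ofReal (r * ‖deriv ψ (circleMap 0 r θ)‖ ^ 2) ≠ ⊤ := by
    refine ne_top_of_le_ne_top ?_ h3
    exact ENNReal.mul_ne_top (ENNReal.pow_ne_top ENNReal.ofReal_ne_top) ENNReal.coe_ne_top
  have hae2 := hae.prod_swap.lintegral_prod_right'
  have h4 := ae_lt_top' (μ := volume.restrict (Ioo (-Real.pi) Real.pi)) hae2 hfin
  filter_upwards [h4] with θ hθ
  have hcr : ContinuousOn (fun r : ℝ => deriv ψ (circleMap 0 r θ)) (Ioo 1 2) := by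
    apply hdψ.comp
    · apply Continuous.continuousOn
      unfold circleMap
      fun_prop
    · intro r hr
      show 1 < ‖circleMap 0 r θ‖
      rw [norm_circleMap_zero, abs_of_pos (by linarith [hr.1])]
      exact hr.1
  have hI1 : IntegrableOn (fun r : ℝ => r * ‖deriv ψ (circleMap 0 r θ)‖ ^ 2) (Ioo 1 2) := by
    have hm : AEStronglyMeasurable (fun r : ℝ => r * ‖deriv ψ (circleMap 0 r θ)‖ ^ 2)
        (volume.restrict (Ioo 1 2)) :=
      (continuousOn_id.mul (hcr.norm.pow 2)).aestronglyMeasurable measurableSet_Ioo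
    have hnn : 0 ≤ᵐ[volume.restrict (Ioo (1 : ℝ) 2)]
        fun r : ℝ => r * ‖deriv ψ (circleMap 0 r θ)‖ ^ 2 := by
      rw [Filter.EventuallyLE, ae_restrict_iff' measurableSet_Ioo]
      refine Filter.Eventually.of_forall fun r hr => ?_
      have : 0 < r := by linarith [hr.1]
      simp only [Pi.zero_apply]
      positivity
    exact (lintegral_ofReal_ne_top_iff_integrable hm hnn).mp hθ.ne
  have hI2 : IntegrableOn (fun r : ℝ => 1 + r * ‖deriv ψ (circleMap 0 r θ)‖ ^ 2) (Ioo 1 2) :=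
    (integrableOn_const (by simp)).add hI1
  refine Integrable.mono' hI2 (hcr.norm.aestronglyMeasurable measurableSet_Ioo) ?_
  rw [ae_restrict_iff' measurableSet_Ioo]
  refine Filter.Eventually.of_forall fun r hr => ?_
  rw [norm_norm]
  have h5 := norm_nonneg (deriv ψ (circleMap 0 r θ))
  nlinarith [sq_nonneg (‖deriv ψ (circleMap 0 r θ)‖ - 1), hr.1,
    mul_nonneg (show 0 ≤ r - 1 by linarith [hr.1]) (sq_nonneg ‖deriv ψ (circleMap 0 r θ)‖)]

theorem ae_landing {d : ℕ} (hd : 2 ≤ d) {ψ : ℂ → ℂ} (hψ : IsExteriorMap (multibrotSet d) ψ) :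
    ∀ᵐ θ : ℝ, ∃ c ∈ multibrotSet d,
      Tendsto (fun r : ℝ => ψ (r * Complex.exp (θ * I))) (𝓝[>] 1) (𝓝 c) := by
  apply ae_of_periodic
  · rintro θ n ⟨c, hc, h⟩
    refine ⟨c, hc, ?_⟩
    have h1 : Complex.exp (((θ + n • (2 * Real.pi) : ℝ) : ℂ) * I) = Complex.exp (θ * I) := by
      have h2 : ((θ + n • (2 * Real.pi) : ℝ) : ℂ) * I = θ * I + n * (2 * Real.pi * I) := by
        rw [zsmul_eq_mul]; push_cast; ring
      rw [h2, Complex.exp_add, Complex.exp_int_mul_two_pi_mul_I, mul_one]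
    rw [h1]
    exact h
  · filter_upwards [ae_integrable hd hψ] with θ hθ
    have hζ : ‖Complex.exp (θ * I)‖ = 1 := Complex.norm_exp_ofReal_mul_I θ
    have h1 := landing hd hψ hζ
      (B := fun r => (r - 1) * ‖deriv ψ (r * Complex.exp (θ * I))‖) (fun r _ => le_rfl) (by
        refine hθ.congr_fun ?_ measurableSet_Ioo
        intro r hr
        have : r - 1 ≠ 0 := by linarith [hr.1]
        simp only
        rw [mul_div_cancel_left₀ _ this, circleMap, zero_add])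
    exact h1.2

theorem landing_final {d k : ℕ} (hd : 4 ^ (k + 3) ≤ d) {ψ : ℂ → ℂ}
    (hψ : IsExteriorMap (multibrotSet d) ψ)
    {ℓ : ℝ} (α : ℝ) (hℓ0 : 0 < ℓ) (hℓ : ℓ ≤ 2 * Real.pi) :
    ∃ s : ℝ, (ℓ = 2 * Real.pi → s = 0) ∧ ∀ lam : ℝ,
      volume {θ : ℝ | θ ∈ Icc (α - ℓ / 2) (α + ℓ / 2) ∧
        ¬ ∃ c ∈ multibrotSet d,
          Tendsto (fun r : ℝ => ψ (r * Complex.exp (θ * I))) (𝓝[>] 1) (𝓝 c) ∧
          ‖P d (k + 1) c - Complex.exp (s * I) * Complex.exp (θ * I) ^ (d ^ k)‖ ≤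
            (6 * lam + 2) * kap d k} ≤
      ENNReal.ofReal (24 * Real.pi * ℓ * Real.exp (-lam)) := by
  obtain ⟨s, hs, h⟩ := landing_badK hd hψ α hℓ0 hℓ
  refine ⟨s, hs, fun lam => ?_⟩
  have h1 := ae_landing (by have := d_ge hd; omega) hψ
  rw [ae_iff] at h1
  refine le_trans (measure_mono (t := {θ : ℝ | ¬ ∃ c ∈ multibrotSet d,
      Tendsto (fun r : ℝ => ψ (r * Complex.exp (θ * I))) (𝓝[>] 1) (𝓝 c)} ∪
    {θ : ℝ | θ ∈ Icc (α - ℓ / 2) (α + ℓ / 2) ∧
        ∃ c : ℂ, Tendsto (fun r : ℝ => ψ (r * Complex.exp (θ * I))) (𝓝[>] 1) (𝓝 c) ∧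
          (6 * lam + 2) * kap d k <
            ‖P d (k + 1) c - Complex.exp (s * I) * Complex.exp (θ * I) ^ (d ^ k)‖}) ?_) ?_
  · rintro θ ⟨hθ1, hθ2⟩
    by_cases h2 : ∃ c ∈ multibrotSet d,
      Tendsto (fun r : ℝ => ψ (r * Complex.exp (θ * I))) (𝓝[>] 1) (𝓝 c)
    · right
      obtain ⟨c, hc, hl⟩ := h2
      refine ⟨hθ1, c, hl, ?_⟩
      by_contra hcon
      exact hθ2 ⟨c, hc, hl, not_lt.mp hcon⟩
    · left; exact h2
  · refine (measure_union_le _ _).trans ?_
    rw [h1, zero_add]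
    exact h lam

end Pool.Agent.H285R3.MB
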